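import Mathlib

/-!
An abstract lazy construction of an assignment of values to cells that meets all local
constraints and codes a family of long computations by unique witnesses.
-/

namespace Pool.Agent.P.MP_7a71fe_lc

/-- total weight of a list of cells -/
def wt {C : Type} (h : C → ℕ) (T : List C) : ℕ := (T.map fun c => h c + 1).sum

@[simp] theorem wt_nil {C : Type} (h : C → ℕ) : wt h [] = 0 := rfl
@[simp] theorem wt_cons {C : Type} (h : C → ℕ) (c : C) (T : List C) :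
    wt h (c :: T) = h c + 1 + wt h T := by simp [wt]
@[simp] theorem wt_append {C : Type} (h : C → ℕ) (T T' : List C) :
    wt h (T ++ T') = wt h T + wt h T' := by simp [wt]
theorem lt_wt {C : Type} (h : C → ℕ) {T : List C} {c : C} (hc : c ∈ T) : h c < wt h T := by
  obtain ⟨a, b, rfl⟩ := List.append_of_mem hc
  simp; omega

structure Sys (C V : Type) where
  h : C → ℕ
  lv : C → ℕ
  act : C → Prop
  fix : C → Prop
  tok : C → Prop
  Con : C → (C → V) → Prop
  B : ℕ → ℕ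
  v0 : V
  G : C → (C → V) → V
  W : C → Finset C
  pas : ∀ c τ, ¬ act c → Con c τ
  cert : ∀ c τ, Con c τ → ∃ T, wt h T ≤ h c ∧
    ∀ τ', τ' c = τ c → (∀ d ∈ T, τ' d = τ d) → Con c τ'
  sat : ∀ c (τ : C → V) (S : Finset C), act c → c ∉ S → S.card ≤ B (lv c) →
    ∃ L, L ≤ h c ∧ ∃ (τ' : C → V) (T : List C),
    (∀ d, h d < L ∨ d ∈ S ∨ fix d → τ' d = τ d) ∧ (∀ d ∈ T, act d → h d < L) ∧ wt h T ≤ h c ∧
    ∀ τ'' : C → V, τ'' c = τ' c → (∀ d ∈ T, τ'' d = τ' d) → Con c τ''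
  cost : ∀ c, act c → h c + 1 ≤ 2 ^ lv c
  finh : ∀ L, {c | act c ∧ h c < L}.Finite
  finl : ∀ m, {c | (act c ∨ tok c) ∧ lv c = m}.Finite
  bud : ∀ m (Δ : Finset C), (∀ e ∈ Δ, (act e ∨ tok e) ∧ lv e ≤ m) → ∑ e ∈ Δ, 2 ^ lv e ≤ B m
  certG : ∀ e τ, tok e → ∃ T, wt h T + 1 ≤ 2 ^ lv e ∧
    ∀ τ', (∀ d ∈ T, τ' d = τ d) → G e τ' = G e τ
  W_fix : ∀ e, tok e → ∀ d ∈ W e, fix d ∧ ¬ act d
  W_card : ∀ e, tok e → B (lv e) < (W e).card
  W_disj : ∀ e e', tok e → tok e' → ∀ d, d ∈ W e → d ∈ W e' → e = e'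
  tok_act : ∀ e, tok e → ¬ act e

namespace Sys

variable {C V : Type} [DecidableEq C] (X : Sys C V)

def Closed (S : Finset C) (τ : C → V) : Prop :=
  ∀ c ∈ S, ∀ τ' : C → V, (∀ d ∈ S, τ' d = τ d) → X.Con c τ'

variable {X}

theorem Closed.insert {S : Finset C} {τ : C → V} (hS : X.Closed S τ) {c : C}
    (hc : ∀ τ' : C → V, τ' c = τ c → (∀ d ∈ S, τ' d = τ d) → X.Con c τ') : X.Closed (insert c S) τ := by
  intro d hd τ' H
  have H' : ∀ d ∈ S, τ' d = τ d := fun d hd => H d (Finset.mem_insert_of_mem hd)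
  rcases Finset.mem_insert.1 hd with rfl | hd
  · exact hc τ' (H _ (Finset.mem_insert_self _ _)) H'
  · exact hS d hd τ' H'

omit [DecidableEq C] in
theorem Closed.congr {S : Finset C} {τ τ' : C → V} (hS : X.Closed S τ)
    (h : ∀ d ∈ S, τ' d = τ d) : X.Closed S τ' :=
  fun c hc τ'' H => hS c hc τ'' fun d hd => (H d hd).trans (h d hd)

theorem closure {τ : C → V} {L : ℕ} (hL : ∀ c, X.h c < L → X.Con c τ) (n : ℕ) :
    ∀ (T : List C) (S : Finset C), wt X.h T ≤ n → X.Closed S τ →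
      (∀ d ∈ T, X.act d → X.h d < L) →
      ∃ S', S ⊆ S' ∧ (∀ d ∈ T, d ∈ S') ∧ X.Closed S' τ ∧ S'.card ≤ S.card + wt X.h T := by
  induction n using Nat.strong_induction_on with
  | _ n ih =>
  intro T S hT hS hlt
  cases T with
  | nil => exact ⟨S, subset_rfl, by simp, hS, by simp⟩
  | cons c T =>
    rw [wt_cons] at hT
    have h1 : ∃ S1, S ⊆ S1 ∧ c ∈ S1 ∧ X.Closed S1 τ ∧ S1.card ≤ S.card + (X.h c + 1) := by
      by_cases ha : X.act c
      · have hc := hlt c (by simp) ha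
        obtain ⟨U, hU, H⟩ := X.cert c τ (hL c hc)
        obtain ⟨S1, h1, h2, h3, h4⟩ := ih (X.h c) (by omega) U S hU hS
          fun d hd _ => by have := lt_wt X.h hd; omega
        refine ⟨insert c S1, h1.trans (Finset.subset_insert _ _), Finset.mem_insert_self _ _,
          h3.insert fun τ' e H' => H τ' e fun d hd => H' d (h2 d hd), ?_⟩
        have := Finset.card_insert_le c S1
        omega
      · refine ⟨insert c S, Finset.subset_insert _ _, Finset.mem_insert_self _ _,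
          hS.insert fun τ' _ _ => X.pas c τ' ha, ?_⟩
        have := Finset.card_insert_le c S
        omega
    obtain ⟨S1, h1, h2, h3, h4⟩ := h1
    obtain ⟨S2, h5, h6, h7, h8⟩ := ih (wt X.h T) (by omega) T S1 le_rfl h3
      fun d hd => hlt d (List.mem_cons_of_mem _ hd)
    refine ⟨S2, h1.trans h5, fun d hd => ?_, h7, by rw [wt_cons]; omega⟩
    rcases List.mem_cons.1 hd with rfl | hd
    · exact h5 h2
    · exact h6 d hd

variable (X) in
/-- the part of the invariant that concerns the constraints below height `L` -/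
structure Good (L : ℕ) (S : Finset C) (τ : C → V) (Δ : Finset C) : Prop where
  cl : X.Closed S τ
  card : S.card ≤ ∑ e ∈ Δ, 2 ^ X.lv e
  req : ∀ e ∈ Δ, X.act e ∨ X.tok e
  mem : ∀ e ∈ Δ, X.act e → e ∈ S
  ord : ∀ c, X.act c → X.h c < L → c ∉ Δ → ∀ e ∈ Δ, X.lv e ≤ X.lv c

variable (X) in
def Ext (L : ℕ) : Prop := ∀ S τ Δ, X.Good L S τ Δ →
  ∃ τ' : C → V, (∀ d, d ∈ S ∨ X.fix d → τ' d = τ d) ∧ ∀ c, X.h c < L → X.Con c τ'

theorem step {c : C} (hE : X.Ext (X.h c)) {S Δ : Finset C} {τ : C → V}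
    (g : X.Good (X.h c) S τ Δ) (ha : X.act c) (hc : c ∉ Δ) (ho : ∀ e ∈ Δ, X.lv e ≤ X.lv c) :
    ∃ (S' : Finset C) (τ' : C → V), S ⊆ S' ∧ c ∈ S' ∧ (∀ d, d ∈ S ∨ X.fix d → τ' d = τ d) ∧ X.Closed S' τ' ∧
      S'.card ≤ ∑ e ∈ insert c Δ, 2 ^ X.lv e := by
  have hk := g.card
  rw [Finset.sum_insert hc]
  by_cases hS : c ∈ S
  · exact ⟨S, τ, subset_rfl, hS, fun _ _ => rfl, g.cl, hk.trans (Nat.le_add_left _ _)⟩
  obtain ⟨τ1, e1, H1⟩ := hE S τ Δ g
  obtain ⟨L, hL, τ2, T, e2, hT, hw, H2⟩ := X.sat c τ1 S ha hS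
    (hk.trans (X.bud _ Δ fun e he => ⟨g.req e he, ho e he⟩))
  have e3 : ∀ d, d ∈ S ∨ X.fix d → τ2 d = τ d := fun d hd => (e2 d (Or.inr hd)).trans (e1 d hd)
  have H3 : ∀ d, X.h d < L → X.Con d τ2 := fun d hd => by
    obtain ⟨U, hU, H⟩ := X.cert d τ1 (H1 d (by omega))
    exact H τ2 (e2 d (Or.inl hd)) fun d' hd' =>
      e2 d' (Or.inl (by have := lt_wt X.h hd'; omega))
  obtain ⟨S1, h1, h2, h3, h4⟩ := closure H3 _ T S le_rfl (g.cl.congr fun d hd => e3 d (Or.inl hd)) hT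
  refine ⟨insert c S1, τ2, h1.trans (Finset.subset_insert _ _), Finset.mem_insert_self _ _, e3,
    h3.insert fun τ' e H' => H2 τ' e fun d hd => H' d (h2 d hd), ?_⟩
  have := Finset.card_insert_le c S1
  have := X.cost c ha
  omega

theorem ext (L : ℕ) : X.Ext L := by
  induction L using Nat.strong_induction_on with
  | _ L ih =>
  intro S τ Δ g
  generalize hn : ((X.finh L).toFinset \ Δ).card = n
  induction n generalizing S τ Δ with
  | zero =>
    refine ⟨τ, fun _ _ => rfl, fun c hc => ?_⟩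
    by_cases ha : X.act c
    · have h1 : c ∈ Δ := by
        by_contra h
        have : c ∈ (X.finh L).toFinset \ Δ := by simp [ha, hc, h]
        rw [Finset.card_eq_zero.1 hn] at this
        simp at this
      exact g.cl c (g.mem c h1 ha) τ fun _ _ => rfl
    · exact X.pas c τ ha
  | succ n ihn =>
    obtain ⟨c, hc, hmin⟩ := Finset.exists_min_image ((X.finh L).toFinset \ Δ) X.lv
      (Finset.card_pos.1 (by omega))
    have hc' : (X.act c ∧ X.h c < L) ∧ c ∉ Δ := by simpa using hc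
    obtain ⟨S', τ1, h1, h2, h3, h4, h5⟩ := step (ih _ hc'.1.2)
      ⟨g.cl, g.card, g.req, g.mem, fun d hd hl => g.ord d hd (hl.trans hc'.1.2)⟩ hc'.1.1 hc'.2
      (g.ord c hc'.1.1 hc'.1.2 hc'.2)
    suffices H : X.Good L S' τ1 (insert c Δ) by
      obtain ⟨τ2, h6, h7⟩ := ihn S' τ1 (insert c Δ) H (by
        rw [Finset.sdiff_insert, Finset.card_erase_of_mem hc, hn]; rfl)
      exact ⟨τ2, fun d hd => (h6 d (hd.imp_left fun h => h1 h)).trans (h3 d hd), h7⟩
    refine ⟨h4, h5, fun e he => ?_, fun e he ha => ?_, fun d hd hl hn' e he => ?_⟩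
    · rcases Finset.mem_insert.1 he with rfl | he
      · exact Or.inl hc'.1.1
      · exact g.req e he
    · rcases Finset.mem_insert.1 he with rfl | he
      · exact h2
      · exact h1 (g.mem e he ha)
    · have hn'' : d ∉ Δ := fun h => hn' (Finset.mem_insert_of_mem h)
      rcases Finset.mem_insert.1 he with rfl | he
      · exact hmin d (by simp [hd, hl, hn''])
      · exact g.ord d hd hl hn'' e he

variable (X) in
/-- states of the main construction -/
structure St (n : ℕ) (s : Finset C × (C → V) × Finset C) : Prop where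
  cl : X.Closed s.1 s.2.1
  card : s.1.card ≤ ∑ e ∈ s.2.2, 2 ^ X.lv e
  req : ∀ e ∈ s.2.2, (X.act e ∨ X.tok e) ∧ X.lv e ≤ n
  mem : ∀ e ∈ s.2.2, X.act e → e ∈ s.1
  low : ∀ e, X.act e ∨ X.tok e → X.lv e < n → e ∈ s.2.2
  done : ∀ e ∈ s.2.2, X.tok e → ∃ d ∈ X.W e, d ∈ s.1 ∧
    (∀ τ' : C → V, (∀ d ∈ s.1, τ' d = s.2.1 d) → X.G e τ' = s.2.1 d) ∧
    ∀ d' ∈ X.W e, d' ≠ d → s.2.1 d' = X.v0
  todo : ∀ e, X.tok e → e ∉ s.2.2 → ∀ d ∈ X.W e, s.2.1 d = X.v0

variable (X) in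
def Le (s s' : Finset C × (C → V) × Finset C) : Prop :=
  s.1 ⊆ s'.1 ∧ s.2.2 ⊆ s'.2.2 ∧ (∀ d ∈ s.1, s'.2.1 d = s.2.1 d) ∧
    ∀ e ∈ s.2.2, X.tok e → ∀ d ∈ X.W e, s'.2.1 d = s.2.1 d

omit [DecidableEq C] in
theorem Le.trans {s s' s'' : Finset C × (C → V) × Finset C} (h : X.Le s s') (h' : X.Le s' s'') :
    X.Le s s'' :=
  ⟨h.1.trans h'.1, h.2.1.trans h'.2.1, fun d hd => (h'.2.2.1 d (h.1 hd)).trans (h.2.2.1 d hd),
    fun e he ht d hd => (h'.2.2.2 e (h.2.1 he) ht d hd).trans (h.2.2.2 e he ht d hd)⟩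

omit [DecidableEq C] in
theorem St.good {n : ℕ} {S Δ : Finset C} {τ : C → V} (g : X.St n (S, τ, Δ)) (L : ℕ) :
    X.Good L S τ Δ :=
  ⟨g.cl, g.card, fun e he => (g.req e he).1, g.mem, fun c hc _ hn e he =>
    (g.req e he).2.trans (not_lt.1 fun h => hn (g.low c (Or.inl hc) h))⟩

theorem St.one {n : ℕ} {s : Finset C × (C → V) × Finset C} (g : X.St n s) {c : C}
    (hr : X.act c ∨ X.tok c) (hl : X.lv c = n) (hc : c ∉ s.2.2) :
    ∃ s', X.St n s' ∧ X.Le s s' ∧ s'.2.2 = insert c s.2.2 := by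
  obtain ⟨S, τ, Δ⟩ := s
  replace hc : c ∉ Δ := hc
  have hreq : ∀ e ∈ insert c Δ, (X.act e ∨ X.tok e) ∧ X.lv e ≤ n := fun e he => by
    rcases Finset.mem_insert.1 he with rfl | he
    · exact ⟨hr, hl.le⟩
    · exact g.req e he
  have hlow : ∀ e, X.act e ∨ X.tok e → X.lv e < n → e ∈ insert c Δ := fun e he h =>
    Finset.mem_insert_of_mem (g.low e he h)
  rcases hr with ha | ht
  · obtain ⟨S', τ', h1, h2, h3, h4, h5⟩ := step (ext _) (g.good _) ha hc
      fun e he => hl ▸ (g.req e he).2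
    have hW : ∀ e, X.tok e → ∀ d ∈ X.W e, τ' d = τ d := fun e he d hd =>
      h3 d (Or.inr (X.W_fix e he d hd).1)
    refine ⟨(S', τ', insert c Δ), ⟨h4, h5, hreq, fun e he ha' => ?_, hlow, fun e he ht => ?_,
      fun e ht he d hd => ?_⟩, ⟨h1, Finset.subset_insert _ _, fun d hd => h3 d (Or.inl hd),
      fun e _ ht => hW e ht⟩, rfl⟩
    · rcases Finset.mem_insert.1 he with rfl | he
      · exact h2
      · exact h1 (g.mem e he ha')
    · rcases Finset.mem_insert.1 he with rfl | he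
      · exact (X.tok_act _ ht ha).elim
      · obtain ⟨d, k1, k2, k3, k4⟩ := g.done e he ht
        exact ⟨d, k1, h1 k2, fun τ'' H => (k3 τ'' fun d hd =>
          (H d (h1 hd)).trans (h3 d (Or.inl hd))).trans (hW e ht d k1).symm,
          fun d' hd' hne => (hW e ht d' hd').trans (k4 d' hd' hne)⟩
    · exact (hW e ht d hd).trans (g.todo e ht (fun h => he (Finset.mem_insert_of_mem h)) d hd)
  · obtain ⟨τ1, e1, H1⟩ := ext (2 ^ X.lv c) S τ Δ (g.good _)
    obtain ⟨T, hT, H2⟩ := X.certG c τ1 ht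
    obtain ⟨S1, h1, h2, h3, h4⟩ := closure H1 _ T S le_rfl
      (g.cl.congr fun d hd => e1 d (Or.inl hd)) fun d hd _ => by have := lt_wt X.h hd; omega
    have h5 : S1.card + 1 ≤ ∑ e ∈ insert c Δ, 2 ^ X.lv e := by
      have : S.card ≤ ∑ e ∈ Δ, 2 ^ X.lv e := g.card
      rw [Finset.sum_insert hc]; omega
    have h6 := X.bud n _ hreq
    have h7 := X.W_card c ht
    rw [hl] at h7
    obtain ⟨w, hw, hw'⟩ := Finset.exists_mem_notMem_of_card_lt_card
      (show S1.card < (X.W c).card by omega)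
    have e2 : ∀ d ∈ S1, Function.update τ1 w (X.G c τ1) d = τ1 d := fun d hd =>
      Function.update_of_ne (by rintro rfl; exact hw' hd) _ _
    have hW : ∀ e, X.tok e → ∀ d ∈ X.W e, d ≠ w → Function.update τ1 w (X.G c τ1) d = τ d :=
      fun e he d hd hne =>
        (Function.update_of_ne hne _ _).trans (e1 d (Or.inr (X.W_fix e he d hd).1))
    have hW' : ∀ e, X.tok e → e ≠ c → ∀ d ∈ X.W e, Function.update τ1 w (X.G c τ1) d = τ d :=
      fun e he hne d hd => hW e he d hd (by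
        rintro rfl; exact hne (X.W_disj e c he ht d hd hw))
    have e3 : ∀ d ∈ S, Function.update τ1 w (X.G c τ1) d = τ d := fun d hd =>
      (e2 d (h1 hd)).trans (e1 d (Or.inl hd))
    have h8 : S ⊆ insert w S1 := h1.trans (Finset.subset_insert _ _)
    refine ⟨(insert w S1, Function.update τ1 w (X.G c τ1), insert c Δ),
      ⟨(h3.congr e2).insert fun τ' _ _ => X.pas w τ' (X.W_fix c ht w hw).2,
        (Finset.card_insert_le _ _).trans h5, hreq, fun e he ha' => ?_, hlow, fun e he ht' => ?_,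
      fun e ht' he d hd => ?_⟩, ⟨h8, Finset.subset_insert _ _, e3,
      fun e he ht' => hW' e ht' (by rintro rfl; exact hc he)⟩, rfl⟩
    · rcases Finset.mem_insert.1 he with rfl | he
      · exact (X.tok_act _ ht ha').elim
      · exact h8 (g.mem e he ha')
    · rcases Finset.mem_insert.1 he with rfl | he'
      · refine ⟨w, hw, Finset.mem_insert_self _ _, fun τ' H => ?_, fun d' hd' hne =>
          (hW e ht d' hd' hne).trans (g.todo e ht hc d' hd')⟩
        simp only [Function.update_self]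
        exact H2 τ' fun d hd => (H d (Finset.mem_insert_of_mem (h2 d hd))).trans (e2 d (h2 d hd))
      · have hne : e ≠ c := by rintro rfl; exact hc he'
        obtain ⟨d, k1, k2, k3, k4⟩ := g.done e he' ht'
        exact ⟨d, k1, h8 k2, fun τ'' H => (k3 τ'' fun d hd =>
          (H d (h8 hd)).trans (e3 d hd)).trans (hW' e ht' hne d k1).symm,
          fun d' hd' hne' => (hW' e ht' hne d' hd').trans (k4 d' hd' hne')⟩
    · exact (hW' e ht' (by rintro rfl; exact he (Finset.mem_insert_self _ _)) d hd).trans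
        (g.todo e ht' (fun h => he (Finset.mem_insert_of_mem h)) d hd)

theorem St.up {n : ℕ} {s : Finset C × (C → V) × Finset C} (g : X.St n s) :
    ∃ s', X.St (n + 1) s' ∧ X.Le s s' := by
  have key : ∀ Y : Finset C, (∀ c ∈ Y, (X.act c ∨ X.tok c) ∧ X.lv c = n) →
      ∃ s', X.St n s' ∧ X.Le s s' ∧ Y ⊆ s'.2.2 := by
    intro Y
    induction Y using Finset.induction_on with
    | empty => exact fun _ => ⟨s, g, ⟨subset_rfl, subset_rfl, fun _ _ => rfl,
        fun _ _ _ _ _ => rfl⟩, by simp⟩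
    | insert c Y _ ih =>
      intro H
      obtain ⟨s1, g1, l1, h1⟩ := ih fun d hd => H d (Finset.mem_insert_of_mem hd)
      by_cases hc : c ∈ s1.2.2
      · exact ⟨s1, g1, l1, Finset.insert_subset hc h1⟩
      · have := H c (Finset.mem_insert_self _ _)
        obtain ⟨s2, g2, l2, h2⟩ := g1.one this.1 this.2 hc
        exact ⟨s2, g2, l1.trans l2, h2 ▸ Finset.insert_subset_insert _ h1⟩
  obtain ⟨s', g', l, h⟩ := key (X.finl n).toFinset (by simp)
  refine ⟨s', ⟨g'.cl, g'.card, fun e he => ⟨(g'.req e he).1, (g'.req e he).2.trans (by omega)⟩,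
    g'.mem, fun e he hl => ?_, g'.done, g'.todo⟩, l⟩
  rcases Nat.lt_succ_iff_lt_or_eq.1 hl with h1 | h1
  · exact g'.low e he h1
  · exact h (by simp [he, h1])

theorem exists_sol (X : Sys C V) : ∃ τ : C → V, (∀ c, X.Con c τ) ∧ ∀ e, X.tok e →
    ∃ d ∈ X.W e, τ d = X.G e τ ∧ ∀ d' ∈ X.W e, d' ≠ d → τ d' = X.v0 := by
  classical
  have g0 : X.St 0 (∅, fun _ => X.v0, ∅) :=
    ⟨fun c hc => by simp at hc, by simp, by simp, by simp, by simp, by simp, fun _ _ _ _ _ => rfl⟩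
  choose nx hnx using fun n (s : {s // X.St n s}) => s.2.up
  let f : ∀ n, {s // X.St n s} := fun n => Nat.rec ⟨_, g0⟩ (fun n s => ⟨nx n s, (hnx n s).1⟩) n
  have hf : ∀ m n, m ≤ n → X.Le (f m).1 (f n).1 := fun m n h => by
    induction n, h using Nat.le_induction with
    | base => exact ⟨subset_rfl, subset_rfl, fun _ _ => rfl, fun _ _ _ _ _ => rfl⟩
    | succ n _ ih => exact ih.trans (hnx n (f n)).2
  let τ : C → V := fun d => if h : ∃ n, d ∈ (f n).1.1 then (f h.choose).1.2.1 d else X.v0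
  have hτ : ∀ n, ∀ d ∈ (f n).1.1, τ d = (f n).1.2.1 d := fun n d hd => by
    have h : ∃ n, d ∈ (f n).1.1 := ⟨n, hd⟩
    simp only [τ, dif_pos h]
    rcases le_total n h.choose with h1 | h1
    · exact (hf _ _ h1).2.2.1 d hd
    · exact ((hf _ _ h1).2.2.1 d h.choose_spec).symm
  refine ⟨τ, fun c => ?_, fun e he => ?_⟩
  · by_cases ha : X.act c
    · have g := (f (X.lv c + 1)).2
      exact g.cl c (g.mem c (g.low c (Or.inl ha) (by omega)) ha) τ (hτ _)
    · exact X.pas c τ ha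
  · have g := (f (X.lv e + 1)).2
    have h1 := g.low e (Or.inr he) (by omega)
    obtain ⟨d, k1, k2, k3, k4⟩ := g.done e h1 he
    refine ⟨d, k1, (hτ _ d k2).trans (k3 τ (hτ _)).symm, fun d' hd' hne => ?_⟩
    by_cases h : ∃ n, d' ∈ (f n).1.1
    · obtain ⟨n, hn⟩ := h
      rw [hτ (max n (X.lv e + 1)) d' ((hf _ _ (le_max_left _ _)).1 hn),
        (hf _ _ (le_max_right n _)).2.2.2 e h1 he d' hd']
      exact k4 d' hd' hne
    · simp only [τ, dif_neg h]

end Sys

end Pool.Agent.P.MP_7a71fe_lc
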