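import Pool.Agent.P.MP_d7de43_lc.Defs

/-!
Complexity classes relative to an oracle.
-/

namespace Pool.Agent.P.MP_7a71fe_lc

open Pool.Agent.P.MP_d7de43_lc

/-- `f` is computed in polynomial time with oracle `A`. -/
def FP (A : Set (List Bool)) (f : List Bool → List Bool) : Prop :=
  ∃ (Q O : List Bool → List Bool) (p : Polynomial ℕ), InFP Q ∧ InFP O ∧
    ∀ z, f z = O (pair z (answers A Q z (p.eval z.length)))

def InP (A L : Set (List Bool)) : Prop := ∃ f, FP A f ∧ ∀ z, z ∈ L ↔ f z = [true]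

def InNP (A L : Set (List Bool)) : Prop :=
  ∃ (V : Set (List Bool)) (p : Polynomial ℕ), InP A V ∧
    ∀ x, x ∈ L ↔ ∃ w, w.length = p.eval x.length ∧ pair x w ∈ V

def InUP (A L : Set (List Bool)) : Prop :=
  ∃ (V : Set (List Bool)) (p : Polynomial ℕ), InP A V ∧
    ∀ x, (x ∈ L ↔ ∃ w, w.length = p.eval x.length ∧ pair x w ∈ V) ∧
      {w | w.length = p.eval x.length ∧ pair x w ∈ V}.Subsingleton

/-- Exponential time: polynomial time on exponentially padded inputs. -/
def InEXP (A L : Set (List Bool)) : Prop :=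
  ∃ (V : Set (List Bool)) (p : Polynomial ℕ), InP A V ∧
    ∀ x, x ∈ L ↔ pair x (List.replicate (2 ^ p.eval x.length) false) ∈ V

/-- `f` is a polynomial-time many-one reduction of `B` to `C`. -/
def Red (A B C : Set (List Bool)) (f : List Bool → List Bool) : Prop :=
  FP A f ∧ ∀ x, x ∈ B ↔ f x ∈ C

def Complete (A C : Set (List Bool)) : Prop :=
  InEXP A C ∧ ∀ B, InEXP A B → ∃ f, Red A B C f

def Iso (A B C : Set (List Bool)) : Prop :=
  ∃ h : List Bool ≃ List Bool, Red A B C h ∧ FP A h.symm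

/-- One-to-one and length-increasing. -/
def OneLi (f : List Bool → List Bool) : Prop :=
  Function.Injective f ∧ ∀ x, x.length < (f x).length

/-- `B` has an invertible length-increasing padding function. -/
def Paddable (A B : Set (List Bool)) : Prop :=
  ∃ g d, FP A g ∧ FP A d ∧ (∀ z, d (g z) = z ∧ z.length < (g z).length) ∧
    ∀ x y, g (pair x y) ∈ B ↔ x ∈ B

end Pool.Agent.P.MP_7a71fe_lc
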