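import Pool.Agent.P.MP_d7de43_lc.Oracle
import Pool.Agent.Lib.Helper33.Sim
import Pool.Agent.Lib.Helper47.Pad
import Pool.Agent.P.MP_7a71fe_lc.Defs
import Pool.Agent.P.MP_7a71fe_lc.Abs

/-!
Certificates for functionals of an oracle, and oracle machines as functionals.
-/

namespace Pool.Agent.P.MP_7a71fe_lc

open Pool.Agent.P.MP_d7de43_lc Pool.Agent.Lib.Helper47

/-- the value of `Φ` is always certified by cells of total weight at most `t` -/
def Cert {ι β α : Type} (h : ι → ℕ) (t : ℕ) (Φ : (ι → β) → α) : Prop :=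
  ∀ τ, ∃ T, wt h T ≤ t ∧ ∀ τ', (∀ d ∈ T, τ' d = τ d) → Φ τ' = Φ τ

namespace Cert
variable {ι β α γ : Type} {h : ι → ℕ} {t t' : ℕ} {Φ : (ι → β) → α} {Ψ : (ι → β) → γ}

theorem mono (H : Cert h t Φ) (ht : t ≤ t') : Cert h t' Φ := fun τ =>
  let ⟨T, h1, h2⟩ := H τ; ⟨T, h1.trans ht, h2⟩

theorem const (a : α) : Cert h t (fun _ : ι → β => a) := fun _ => ⟨[], by simp, fun _ _ => rfl⟩

theorem query (d : ι) : Cert h (h d + 1) (fun τ : ι → β => τ d) := fun _ =>
  ⟨[d], by simp, fun _ H => H d (by simp)⟩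

theorem dep (H : Cert h t Φ) (hd : ∀ σ σ', Φ σ' = Φ σ → Ψ σ' = Ψ σ) : Cert h t Ψ := fun τ =>
  let ⟨T, h1, h2⟩ := H τ; ⟨T, h1, fun τ' H' => hd _ _ (h2 τ' H')⟩

theorem map (H : Cert h t Φ) (g : α → γ) : Cert h t fun σ => g (Φ σ) :=
  H.dep fun _ _ e => by rw [e]

theorem bind {Ψ : α → (ι → β) → γ} (H : Cert h t Φ) (H' : ∀ τ, Cert h t' (Ψ (Φ τ))) :
    Cert h (t + t') fun σ => Ψ (Φ σ) σ := fun τ => by
  obtain ⟨T, h1, h2⟩ := H τ
  obtain ⟨T', h3, h4⟩ := H' τ τ
  refine ⟨T ++ T', by rw [wt_append]; omega, fun τ' e => ?_⟩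
  simp only
  rw [h2 τ' fun d hd => e d (List.mem_append_left _ hd)]
  exact h4 τ' fun d hd => e d (List.mem_append_right _ hd)

theorem prod (H : Cert h t Φ) (H' : Cert h t' Ψ) : Cert h (t + t') fun σ => (Φ σ, Ψ σ) :=
  H.bind (Ψ := fun a σ => (a, Ψ σ)) fun _ => H'.map _

theorem family {κ : Type} (Y : Finset κ) {Φ : κ → (ι → β) → α} (H : ∀ y ∈ Y, Cert h t (Φ y))
    (hd : ∀ σ σ', (∀ y ∈ Y, Φ y σ' = Φ y σ) → Ψ σ' = Ψ σ) : Cert h (Y.card * t) Ψ := by
  classical
  intro τ
  suffices K : ∃ T, wt h T ≤ Y.card * t ∧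
      ∀ τ', (∀ d ∈ T, τ' d = τ d) → ∀ y ∈ Y, Φ y τ' = Φ y τ from
    let ⟨T, h1, h2⟩ := K; ⟨T, h1, fun τ' e => hd _ _ (h2 τ' e)⟩
  clear hd
  induction Y using Finset.induction_on with
  | empty => exact ⟨[], by simp, by simp⟩
  | insert a Y ha ih =>
    obtain ⟨T, h1, h2⟩ := ih fun y hy => H y (Finset.mem_insert_of_mem hy)
    obtain ⟨T', h3, h4⟩ := H a (Finset.mem_insert_self _ _) τ
    refine ⟨T ++ T', by rw [wt_append, Finset.card_insert_of_notMem ha, add_mul]; omega,
      fun τ' e y hy => ?_⟩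
    rcases Finset.mem_insert.1 hy with rfl | hy
    · exact h4 τ' fun d hd => e d (List.mem_append_right _ hd)
    · exact h2 τ' (fun d hd => e d (List.mem_append_left _ hd)) y hy

end Cert

abbrev Str : Type := List Bool
abbrev Ora : Type := Str → Bool

/-- polynomially certified functionals with values of polynomial length -/
def PF (F : Ora → Str → Str) : Prop := ∃ p : Polynomial ℕ, ∀ x,
  Cert List.length (p.eval x.length) (fun b => F b x) ∧ ∀ b, (F b x).length ≤ p.eval x.length

/-- exponentially certified predicates -/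
def EF (G : Ora → Str → Prop) : Prop := ∃ q : Polynomial ℕ, ∀ x,
  Cert List.length (2 ^ q.eval x.length) fun b => G b x

theorem PF.intro {F : Ora → Str → Str} (t u : Str → ℕ) (ht : PB List.length t)
    (hu : PB List.length u) (h1 : ∀ x, Cert List.length (t x) fun b => F b x)
    (h2 : ∀ x b, (F b x).length ≤ u x) : PF F := by
  obtain ⟨p, hp⟩ := ht.add hu
  exact ⟨p, fun x => ⟨(h1 x).mono ((Nat.le_add_right _ _).trans (hp x)),
    fun b => (h2 x b).trans ((Nat.le_add_left _ _).trans (hp x))⟩⟩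

theorem PF.comp {F F' : Ora → Str → Str} (h : PF F) (h' : PF F') :
    PF fun b x => F b (F' b x) := by
  obtain ⟨p, hp⟩ := h
  obtain ⟨q, hq⟩ := h'
  refine PF.intro (fun x => q.eval x.length + p.eval (q.eval x.length))
    (fun x => p.eval (q.eval x.length)) ((PB.self.eval q).add ((PB.self.eval q).eval p))
    ((PB.self.eval q).eval p) (fun x => ?_) fun x b => ?_
  · exact (hq x).1.bind (Ψ := fun a b => F b a) fun τ =>
      (hp _).1.mono (eval_mono p ((hq x).2 τ))
  · exact ((hp _).2 b).trans (eval_mono p ((hq x).2 b))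

theorem PF.pair {F F' : Ora → Str → Str} (h : PF F) (h' : PF F') :
    PF fun b x => pair (F b x) (F' b x) := by
  obtain ⟨p, hp⟩ := h
  obtain ⟨q, hq⟩ := h'
  refine PF.intro (fun x => p.eval x.length + q.eval x.length)
    (fun x => 2 * p.eval x.length + 1 + q.eval x.length) ((PB.self.eval p).add (PB.self.eval q))
    ((((PB.const 2).mul (PB.self.eval p)).add (PB.const 1)).add (PB.self.eval q))
    (fun x => ((hp x).1.prod (hq x).1).map fun a => MP_d7de43_lc.pair a.1 a.2) fun x b => ?_
  have := (hp x).2 b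
  have := (hq x).2 b
  rw [length_pair]; omega

/-! ### Machines -/

theorem run_det {P : Prog} {S S' S'' : St} {m n : ℕ} (h : Run P S S' m) (h' : Run P S S'' n) :
    S' = S'' := by
  obtain ⟨a, -, ha⟩ := h.reach (P.code id none) id none fun _ => rfl
  obtain ⟨b, -, hb⟩ := h'.reach (P.code id none) id none fun _ => rfl
  have key : ∀ (U U' : St) (k : ℕ), (flip bind (Turing.TM2.step (P.code id none)))^[k]
      (some (⟨none, none, U⟩ : Cf P.Lab)) = some ⟨none, none, U'⟩ → U = U' := by
    intro U U' k hk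
    cases k with
    | zero => simpa using hk
    | succ k =>
      rw [Function.iterate_succ_apply] at hk
      exact absurd ((Function.iterate_fixed (f := flip bind (Turing.TM2.step (P.code id none)))
        (x := none) rfl k).symm.trans hk) (by simp)
  rcases le_total a b with h1 | h1
  · obtain ⟨k, rfl⟩ := Nat.exists_eq_add_of_le' h1
    rw [Function.iterate_add_apply, ha] at hb
    exact key _ _ _ hb
  · obtain ⟨k, rfl⟩ := Nat.exists_eq_add_of_le' h1
    rw [Function.iterate_add_apply, hb] at ha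
    exact (key _ _ _ ha).symm

def progCode (kc : K × Bool → ℕ) : Prog → ℕ
  | .skip => Nat.pair 0 0
  | .push k b => Nat.pair 1 (kc (k, b))
  | .seq P Q => Nat.pair 2 (Nat.pair (progCode kc P) (progCode kc Q))
  | .case k P Q R => Nat.pair 3 (Nat.pair (kc (k, true))
      (Nat.pair (progCode kc P) (Nat.pair (progCode kc Q) (progCode kc R))))
  | .loop k Q R => Nat.pair 4 (Nat.pair (kc (k, true)) (Nat.pair (progCode kc Q) (progCode kc R)))

theorem countable_prog : Countable Prog := by
  obtain ⟨kc, hk⟩ := exists_injective_nat (K × Bool)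
  refine Function.Injective.countable (f := progCode kc) fun P Q h => ?_
  induction P generalizing Q with
  | skip => cases Q <;> simp_all [progCode, Nat.pair_eq_pair]
  | push k b => cases Q <;> simp_all [progCode, Nat.pair_eq_pair, hk.eq_iff]
  | seq P P' ih ih' =>
    cases Q <;> simp only [progCode, Nat.pair_eq_pair] at h <;> try omega
    rw [ih _ h.2.1, ih' _ h.2.2]
  | case k P P' P'' ih ih' ih'' =>
    cases Q <;> simp only [progCode, Nat.pair_eq_pair] at h <;> try omega
    rw [ih _ h.2.2.1, ih' _ h.2.2.2.1, ih'' _ h.2.2.2.2, show k = _ from (Prod.ext_iff.1 (hk h.2.1)).1]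
  | loop k P P' ih ih' =>
    cases Q <;> simp only [progCode, Nat.pair_eq_pair] at h <;> try omega
    rw [ih _ h.2.2.1, ih' _ h.2.2.2, show k = _ from (Prod.ext_iff.1 (hk h.2.1)).1]

theorem pt_of_inFP {f : Str → Str} (h : InFP f) : PT f := Lib.Helper33.Sim.pt_of_tm h.some

theorem countable_inFP : Countable {f // InFP f} := by
  have := countable_prog
  choose P p hP using fun f : {f // InFP f} => pt_of_inFP f.2
  refine Function.Injective.countable (f := P) fun f g h => Subtype.ext (funext fun a => ?_)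
  have h1 := hP f a []
  have h2 := hP g a []
  rw [h] at h1
  have h3 := congrFun (run_det h1 h2) K.A
  exact Enc.inj (T.enc_injective (List.append_cancel_right h3))

theorem pb_of_pt {f : Str → Str} (h : PT f) : PB List.length fun x => (f x).length :=
  exists_poly_length (ps_length h)

def Mach : Type := {x : (Str → Str) × (Str → Str) × Polynomial ℕ // InFP x.1 ∧ InFP x.2.1}

instance : Countable (Polynomial ℕ) :=
  (AddMonoidAlgebra.coeffEquiv.injective.comp Polynomial.toFinsupp_injective).countable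

instance : Countable Mach := by
  have := countable_inFP
  refine Function.Injective.countable
    (f := fun M : Mach => ((⟨_, M.2.1⟩ : {f // InFP f}), (⟨_, M.2.2⟩ : {f // InFP f}), M.1.2.2))
    fun M M' h => Subtype.ext ?_
  simp only [Prod.ext_iff, Subtype.mk.injEq] at h ⊢
  exact h

noncomputable def run (M : Mach) (b : Ora) (z : Str) : Str :=
  M.1.2.1 (pair z (loop (fun l => b (M.1.1 (pair z l))) (M.1.2.2.eval z.length)))

def ora (b : Ora) : Set Str := {s | b s = true}

theorem fp_iff {b : Ora} {f : Str → Str} : FP (ora b) f ↔ ∃ M, f = run M b := by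
  have key : ∀ (Q : Str → Str) z k, answers (ora b) Q z k = loop (fun l => b (Q (pair z l))) k :=
    fun Q z k => by
      unfold answers loop
      congr 1
      funext a
      congr 2
      cases h : b (Q (pair z a)) <;> simp [ora, h]
  constructor
  · rintro ⟨Q, O, p, h1, h2, h3⟩
    exact ⟨⟨(Q, O, p), h1, h2⟩, funext fun z => by rw [h3, key]; rfl⟩
  · rintro ⟨M, rfl⟩
    exact ⟨_, _, M.1.2.2, M.2.1, M.2.2, fun z => by rw [key]; rfl⟩

theorem cert_loop (Q : Str → Str) (t k : ℕ) (h : ∀ l, l.length < k → (Q l).length + 1 ≤ t) :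
    Cert List.length (k * t) fun b : Ora => loop (fun l => b (Q l)) k := by
  induction k with
  | zero => exact Cert.const _
  | succ k ih =>
    simp only [loop_succ, add_mul, one_mul]
    exact (ih fun l hl => h l (by omega)).bind (Ψ := fun l b => l ++ [b (Q l)]) fun τ =>
      ((Cert.query _).mono (h _ (by simp))).map fun a => _ ++ [a]

theorem pf_run (M : Mach) : PF (run M) := by
  obtain ⟨q, hq⟩ := pb_of_pt (pt_of_inFP M.2.1)
  obtain ⟨o, ho⟩ := pb_of_pt (pt_of_inFP M.2.2)
  have h1 : PB List.length fun x : Str => 2 * x.length + 1 + M.1.2.2.eval x.length :=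
    (((PB.const 2).mul PB.self).add (PB.const 1)).add (PB.self.eval _)
  refine PF.intro _ _ ((PB.self.eval M.1.2.2).mul ((h1.eval q).add (PB.const 1))) (h1.eval o)
    (fun x => (cert_loop _ _ _ fun l hl => ?_).map fun a => M.1.2.1 (pair x a)) fun x b => ?_
  · exact Nat.succ_le_succ ((hq _).trans (eval_mono q (by rw [length_pair]; omega)))
  · exact (ho _).trans (eval_mono o (by rw [length_pair, length_loop]))

theorem fp_of_pt (A : Set Str) {f : Str → Str} (h : PT f) : FP A f :=
  ⟨id, fun y => f (fstP y), 0, inFP_of_pt PT.id, inFP_of_pt (by fun_prop), fun z => by simp⟩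

theorem pair_inj {x w x' w' : Str} : pair x w = pair x' w' ↔ x = x' ∧ w = w' :=
  ⟨fun h => ⟨by simpa using congrArg fstP h, by simpa using congrArg sndP h⟩,
    fun h => by rw [h.1, h.2]⟩

/-- the strings of length `n` -/
def strs (n : ℕ) : Finset Str := Finset.univ.image fun v : List.Vector Bool n => v.toList

@[simp] theorem mem_strs {n : ℕ} {x : Str} : x ∈ strs n ↔ x.length = n := by
  simp only [strs, Finset.mem_image, Finset.mem_univ, true_and]
  exact ⟨by rintro ⟨v, rfl⟩; exact v.2, fun h => ⟨⟨x, h⟩, rfl⟩⟩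

@[simp] theorem card_strs (n : ℕ) : (strs n).card = 2 ^ n := by
  rw [strs, Finset.card_image_of_injective _ List.Vector.toList_injective]
  simp [card_vector]

theorem exists_le_two_pow (p : Polynomial ℕ) : ∃ c, ∀ m, c ≤ m → p.eval m ≤ 2 ^ m := by
  obtain ⟨c, e, h⟩ := eval_le_pow p
  have h1 := (tendsto_pow_const_div_const_pow_of_one_lt e (r := 2) one_lt_two).const_mul
    (2 * c : ℝ)
  rw [mul_zero] at h1
  obtain ⟨n, hn⟩ := Filter.eventually_atTop.1 (h1.eventually (gt_mem_nhds one_pos))
  refine ⟨n, fun m hm => (h m).trans ?_⟩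
  have h2 := hn (m + 1) (by omega)
  rw [← mul_div_assoc, div_lt_one (by positivity), pow_succ] at h2
  have h3 : (c * (m + 1) ^ e : ℝ) ≤ 2 ^ m := by push_cast at h2; linarith
  exact_mod_cast h3

end Pool.Agent.P.MP_7a71fe_lc
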