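import Pool.Agent.P.MP_7a71fe_lc.Cert

/-!
The oracle: cells are coded by strings, and the abstract construction is applied.
-/

namespace Pool.Agent.P.MP_7a71fe_lc

open Pool.Agent.P.MP_d7de43_lc Pool.Agent.Lib.Helper47

abbrev Cell : Type := ℕ × ℕ × Str × Str

def rep (n : ℕ) : Str := List.replicate n false

@[simp] theorem length_rep (n : ℕ) : (rep n).length = n := by simp [rep]
theorem rep_inj {m n : ℕ} : rep m = rep n ↔ m = n :=
  ⟨fun h => by simpa using congrArg List.length h, fun h => by rw [h]⟩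

def loc (h : Cell → ℕ) (c : Cell) (j : ℕ) : Str :=
  pair (rep j) (pair (rep c.1) (pair (rep c.2.1) (pair c.2.2.1 (pair c.2.2.2 (rep (h c))))))

theorem loc_inj {h : Cell → ℕ} {c c' : Cell} {j j' : ℕ} (e : loc h c j = loc h c' j') :
    c = c' ∧ j = j' := by
  simp only [loc, pair_inj, rep_inj] at e
  exact ⟨Prod.ext e.2.1 (Prod.ext e.2.2.1 (Prod.ext e.2.2.2.1 e.2.2.2.2.1)), e.1⟩

open Classical in
noncomputable def orc (h : Cell → ℕ) (τ : Cell → Str) : Ora := fun s =>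
  if H : ∃ p : Cell × ℕ, s = loc h p.1 p.2 then (pair (τ H.choose.1) []).getD H.choose.2 false
  else false

theorem orc_loc (h : Cell → ℕ) (τ : Cell → Str) (c : Cell) (j : ℕ) :
    orc h τ (loc h c j) = (pair (τ c) []).getD j false := by
  have H : ∃ p : Cell × ℕ, loc h c j = loc h p.1 p.2 := ⟨(c, j), rfl⟩
  have := loc_inj H.choose_spec
  rw [orc, dif_pos H, ← this.1, ← this.2]

theorem cert_orc {h : Cell → ℕ} {z : Cell} (hz : h z = 0) {α : Type} {t : ℕ} {Φ : Ora → α}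
    (H : Cert List.length t Φ) : Cert h t fun τ => Φ (orc h τ) := by
  classical
  intro τ
  obtain ⟨T, h1, h2⟩ := H (orc h τ)
  let κ : Str → Cell := fun s => if H : ∃ p : Cell × ℕ, s = loc h p.1 p.2 then H.choose.1 else z
  refine ⟨T.map κ, le_trans ?_ h1, fun τ' e => h2 _ fun s hs => ?_⟩
  · rw [wt, wt, List.map_map]
    refine List.sum_le_sum fun s _ => Nat.succ_le_succ ?_
    simp only [κ]
    split_ifs with H
    · have := congrArg List.length H.choose_spec
      simp only [loc, length_pair, length_rep] at this ⊢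
      omega
    · omega
  · have := e _ (List.mem_map_of_mem hs)
    simp only [κ, orc] at this ⊢
    split_ifs at this ⊢ with H
    · rw [this]
    · rfl

theorem loop_getD (v : Str) (N : ℕ) :
    loop (fun l => v.getD l.length false) N = (v ++ rep N).take N := by
  apply List.ext_getElem (by simp)
  intro i h1 h2
  have h3 : i < N := by simpa using h1
  have h4 := take_loop (fun l => v.getD l.length false) (show i + 1 ≤ N from h3)
  rw [loop_succ] at h4
  have h5 := congrArg (fun l : Str => l[i]?) h4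
  simp only [length_loop] at h5
  rw [List.getElem?_take_of_lt (by omega), List.getElem?_eq_getElem h1,
    List.getElem?_append_right (by simp)] at h5
  simp only [length_loop, Nat.sub_self, List.getElem?_cons_zero, Option.some.injEq] at h5
  rw [h5, List.getElem_take, List.getElem_append]
  split_ifs with h6
  · simp [h6]
  · simp [rep, List.getD_eq_getElem?_getD, List.getElem?_eq_none (not_lt.1 h6)]

theorem fp_look (h : Cell → ℕ) (τ : Cell → Str) (k i : ℕ) {cx cw g : Str → Str} (hx : PT cx)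
    (hw : PT cw) (hg : PT g) (H : Polynomial ℕ)
    (hh : ∀ y, h (k, i, cx y, cw y) = H.eval (cx y).length) (m : Polynomial ℕ) :
    ∃ f, FP (ora (orc h τ)) f ∧ ∀ y, (τ (k, i, cx y, cw y)).length ≤ m.eval y.length →
      f y = g (τ (k, i, cx y, cw y)) := by
  have h1 : PT fun y => rep (h (k, i, cx y, cw y)) := by
    simp only [hh]
    exact PT.replicate (pt_eval H (by fun_prop)) ((ps_length hx).eval H) (PT.const _)
  have h2 : PT fun y : Str => rep y.length :=
    PT.replicate (by fun_prop) (ps_length PT.id) (PT.const _)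
  have h3 : PT fun y => loc h (k, i, cx (fstP y), cw (fstP y)) (sndP y).length := by
    have h4 := h1.comp (pt_fstP PT.id)
    have h5 := h2.comp (pt_sndP PT.id)
    unfold loc
    exact pt_pair h5 (pt_pair (PT.const (rep k)) (pt_pair (PT.const (rep i))
      (pt_pair (by fun_prop) (pt_pair (by fun_prop) h4))))
  refine ⟨_, fp_iff.2 ⟨⟨(fun y => loc h (k, i, cx (fstP y), cw (fstP y)) (sndP y).length,
    fun y => g (fstP (sndP y)), 2 * m + 1), inFP_of_pt h3,
    inFP_of_pt (by fun_prop)⟩, rfl⟩, fun y hy => ?_⟩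
  simp only [run, fstP_pair, sndP_pair, orc_loc, loop_getD]
  congr 1
  rw [List.take_append, List.take_of_length_le (by simp [length_pair]; omega)]
  have : ∀ a w : Str, pair a [] ++ w = pair a w := fun a w => by simp [pair]
  rw [this, fstP_pair]

/-! ### Counting -/

def box (m : ℕ) : Set Cell := {c | c.1 ≤ 4 ∧ c.2.1 ≤ m ∧ c.2.2.1.length ≤ m ∧ c.2.2.2 = []}

theorem exists_box (m : ℕ) : ∃ f : Cell → Str, Set.MapsTo f (box m) (strs (4 * m + 11)) ∧
    Set.InjOn f (box m) := by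
  refine ⟨fun c => pair (rep c.1) (pair (rep c.2.1) (pair c.2.2.1
    (rep (2 * (4 - c.1) + 2 * (m - c.2.1) + 2 * (m - c.2.2.1.length))))), ?_, ?_⟩
  · rintro c ⟨h1, h2, h3, -⟩
    simp only [Finset.mem_coe, mem_strs, length_pair, length_rep]
    omega
  · rintro c ⟨-, -, -, h⟩ c' ⟨-, -, -, h'⟩ e
    simp only [pair_inj, rep_inj] at e
    exact Prod.ext e.1 (Prod.ext e.2.1 (Prod.ext e.2.2.1 (h.trans h'.symm)))

theorem finite_box (m : ℕ) : (box m).Finite :=
  let ⟨_, h1, h2⟩ := exists_box m; Set.Finite.of_injOn h1 h2 (Finset.finite_toSet _)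

theorem card_box {m : ℕ} {Δ : Finset Cell} (h : ∀ c ∈ Δ, c ∈ box m) :
    Δ.card ≤ 2 ^ (4 * m + 11) := by
  obtain ⟨f, h1, h2⟩ := exists_box m
  rw [← card_strs]
  exact Finset.card_le_card_of_injOn f (fun c hc => h1 (h c hc)) (h2.mono h)

/-! ### The system -/

structure Par where
  F : ℕ → Ora → Str → Str
  G : ℕ → Ora → Str → Prop
  t : ℕ → Polynomial ℕ
  q : ℕ → Polynomial ℕ
  Z : ℕ → Polynomial ℕ
  c : ℕ → ℕ
  hF : ∀ i x, Cert List.length ((t i).eval x.length) (fun b => F i b x) ∧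
    ∀ b, (F i b x).length ≤ (t i).eval x.length
  hG : ∀ i x, Cert List.length (2 ^ (q i).eval x.length) fun b => G i b x
  hZ : ∀ i m, 2 * (t i).eval (7 * m + 13) + (t i).eval ((t i).eval (7 * m + 13)) + m + 1 ≤
    (Z i).eval m
  hc : ∀ i, i ≤ c i ∧ ∀ m, c i ≤ m → (Z i).eval m + 1 ≤ 2 ^ m

namespace Par
variable (P : Par)

noncomputable def h (d : Cell) : ℕ :=
  if d.1 ≤ 1 then (P.Z d.2.1).eval (d.2.2.1.length + P.c d.2.1)
  else if d.1 = 2 then (P.t d.2.1).eval d.2.2.1.length else 0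

noncomputable def lv (d : Cell) : ℕ :=
  if d.1 ≤ 1 then d.2.2.1.length + P.c d.2.1
  else (P.q d.2.1).eval d.2.2.1.length + d.2.2.1.length + d.2.1 + 1

def rho (i : ℕ) (x : Str) : ℕ := 5 * (x.length + P.c i) + 12

def Bad (i : ℕ) (x : Str) (b : Ora) : Prop :=
  ∃ r r' : Str, r.length = P.rho i x ∧ r'.length = P.rho i x ∧
    ((P.F i b (pair x r)).length ≤ (pair x r).length ∨
      (r ≠ r' ∧ P.F i b (pair x r) = P.F i b (pair x r')))

def Con (d : Cell) (τ : Cell → Str) : Prop := d.2.2.2 = [] →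
  (d.1 = 0 → τ d = P.F d.2.1 (orc P.h τ) d.2.2.1) ∧
  (d.1 = 1 → P.Bad d.2.1 d.2.2.1 (orc P.h τ) ∨ ((τ d).length = P.rho d.2.1 d.2.2.1 ∧
    τ (2, d.2.1, P.F d.2.1 (orc P.h τ) (pair d.2.2.1 (τ d)), []) = d.2.2.1))

theorem certF (i : ℕ) (x : Str) :
    Cert P.h ((P.t i).eval x.length) fun τ => P.F i (orc P.h τ) x :=
  cert_orc (z := (3, 0, [], [])) (by simp [h]) (P.hF i x).1

theorem t_le {i : ℕ} {x r : Str} (hr : r.length = P.rho i x) :
    (P.t i).eval (pair x r).length ≤ (P.t i).eval (7 * (x.length + P.c i) + 13) :=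
  eval_mono _ (by rw [length_pair, hr, rho]; omega)

theorem cert0 (i : ℕ) (x : Str) (τ : Cell → Str) : ∃ T, wt P.h T ≤ P.h (0, i, x, []) ∧
    ∀ τ', (∀ d ∈ T, τ' d = τ d) → P.F i (orc P.h τ') x = P.F i (orc P.h τ) x := by
  refine (P.certF i x).mono ?_ τ
  have h1 := P.hZ i (x.length + P.c i)
  have h2 := eval_mono (P.t i) (show x.length ≤ 7 * (x.length + P.c i) + 13 by omega)
  simp only [h, Nat.zero_le, if_true]
  omega

theorem certBad {i : ℕ} {x : Str} {τ : Cell → Str} (hb : P.Bad i x (orc P.h τ)) :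
    ∃ T, wt P.h T ≤ P.h (1, i, x, []) ∧
      ∀ τ', (∀ d ∈ T, τ' d = τ d) → P.Bad i x (orc P.h τ') := by
  obtain ⟨r, r', h1, h2, h3⟩ := hb
  obtain ⟨T, h4, h5⟩ := (P.certF i (pair x r)).prod (P.certF i (pair x r')) τ
  refine ⟨T, ?_, fun τ' e => ⟨r, r', h1, h2, ?_⟩⟩
  · have := P.t_le h1
    have := P.t_le h2
    have := P.hZ i (x.length + P.c i)
    simp only [h, le_refl, if_true]
    omega
  · have := Prod.ext_iff.1 (h5 τ' e)
    simp only at this
    rwa [this.1, this.2]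

theorem certGood {i : ℕ} {x r : Str} (hr : r.length = P.rho i x) (τ : Cell → Str) :
    ∃ T, wt P.h T ≤ (P.t i).eval (pair x r).length ∧
      wt P.h ((2, i, P.F i (orc P.h τ) (pair x r), []) :: T) ≤ P.h (1, i, x, []) ∧
      ∀ τ', (∀ d ∈ T, τ' d = τ d) →
        P.F i (orc P.h τ') (pair x r) = P.F i (orc P.h τ) (pair x r) := by
  obtain ⟨T, h1, h2⟩ := P.certF i (pair x r) τ
  refine ⟨T, h1, ?_, h2⟩
  have h3 := P.t_le hr
  have h4 := eval_mono (P.t i) (((P.hF i (pair x r)).2 (orc P.h τ)).trans h3)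
  have := P.hZ i (x.length + P.c i)
  simp only [wt_cons, h, le_refl, if_true, show ¬ 2 ≤ 1 by omega, if_false]
  omega

theorem cert (d : Cell) (τ : Cell → Str) (hd : P.Con d τ) : ∃ T, wt P.h T ≤ P.h d ∧
    ∀ τ', τ' d = τ d → (∀ e ∈ T, τ' e = τ e) → P.Con d τ' := by
  obtain ⟨k, i, x, w⟩ := d
  by_cases hw : w = []
  swap
  · exact ⟨[], by simp, fun _ _ _ h => (hw h).elim⟩
  subst hw
  rcases k with _ | _ | k
  · obtain ⟨T, h1, h2⟩ := P.cert0 i x τ
    exact ⟨T, h1, fun τ' e H _ => ⟨fun _ => by rw [e, h2 τ' H]; exact (hd rfl).1 rfl, by simp⟩⟩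
  · rcases (hd rfl).2 rfl with h | ⟨h1, h2⟩
    · obtain ⟨T, h1, h2⟩ := P.certBad h
      exact ⟨T, h1, fun τ' _ H _ => ⟨by simp, fun _ => Or.inl (h2 τ' H)⟩⟩
    · obtain ⟨T, -, h3, h4⟩ := P.certGood h1 τ
      refine ⟨_, h3, fun τ' e H _ => ⟨by simp, fun _ => Or.inr ?_⟩⟩
      simp only at h1 h2 ⊢
      rw [e, h4 τ' fun d hd => H d (List.mem_cons_of_mem _ hd), H _ List.mem_cons_self]
      exact ⟨h1, h2⟩
  · exact ⟨[], by simp, fun _ _ _ _ => ⟨by simp, by simp⟩⟩

theorem sat (d : Cell) (τ : Cell → Str) (S : Finset Cell) (ha : d.1 ≤ 1 ∧ d.2.2.2 = [])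
    (hS : d ∉ S) (hc : S.card ≤ 2 ^ (5 * P.lv d + 11)) :
    ∃ L, L ≤ P.h d ∧ ∃ (τ' : Cell → Str) (T : List Cell),
    (∀ e, P.h e < L ∨ e ∈ S ∨ e.1 = 3 → τ' e = τ e) ∧
    (∀ e ∈ T, e.1 ≤ 1 ∧ e.2.2.2 = [] → P.h e < L) ∧ wt P.h T ≤ P.h d ∧
    ∀ τ'' : Cell → Str, τ'' d = τ' d → (∀ e ∈ T, τ'' e = τ' e) → P.Con d τ'' := by
  obtain ⟨k, i, x, w⟩ := d
  obtain ⟨hk, rfl⟩ : k ≤ 1 ∧ w = [] := ha
  rcases Nat.le_one_iff_eq_zero_or_eq_one.1 hk with rfl | rfl
  · obtain ⟨T, h1, h2⟩ := P.cert0 i x τ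
    have h3 : ∀ e, P.h e < P.h (0, i, x, []) ∨ e ∈ S ∨ e.1 = 3 →
        Function.update τ (0, i, x, []) (P.F i (orc P.h τ) x) e = τ e := fun e he =>
      Function.update_of_ne (by rintro rfl; simp [hS] at he) _ _
    have h4 : ∀ e ∈ T, P.h e < P.h (0, i, x, []) := fun e he => (lt_wt _ he).trans_le h1
    refine ⟨_, le_rfl, _, T, h3, fun e he _ => h4 e he, h1, fun τ' e H _ => ⟨fun _ => ?_, by simp⟩⟩
    rw [e, Function.update_self, h2 τ' fun d hd => (H d hd).trans (h3 d (Or.inl (h4 d hd)))]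
  by_cases hb : P.Bad i x (orc P.h τ)
  · obtain ⟨T, h1, h2⟩ := P.certBad hb
    exact ⟨_, le_rfl, τ, T, fun _ _ => rfl, fun e he _ => (lt_wt _ he).trans_le h1, h1,
      fun τ' _ H _ => ⟨by simp, fun _ => Or.inl (h2 τ' H)⟩⟩
  have h0 : S.card < ((strs (P.rho i x)).image fun r =>
      ((2, i, P.F i (orc P.h τ) (pair x r), []) : Cell)).card := by
    rw [Finset.card_image_of_injOn, card_strs]
    · refine hc.trans_lt (Nat.pow_lt_pow_right (by omega) ?_)
      simp [lv, rho]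
    · intro r hr r' hr' e
      by_contra hne
      exact hb ⟨r, r', by simpa using hr, by simpa using hr', Or.inr ⟨hne, by simpa using e⟩⟩
  obtain ⟨_, hd, hd'⟩ := Finset.exists_mem_notMem_of_card_lt_card h0
  obtain ⟨r, hr, rfl⟩ := Finset.mem_image.1 hd
  rw [mem_strs] at hr
  obtain ⟨T, h1, h2, h3⟩ := P.certGood hr τ
  set u := P.F i (orc P.h τ) (pair x r) with hu
  have h4 : (P.t i).eval (pair x r).length ≤ P.h (2, i, u, []) :=
    eval_mono _ (not_lt.1 fun h => hb ⟨r, r, hr, hr, Or.inl h.le⟩)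
  have h5 : P.h (2, i, u, []) ≤ P.h (1, i, x, []) := by rw [wt_cons] at h2; omega
  have h6 : ∀ e, P.h e < (P.t i).eval (pair x r).length ∨ e ∈ S ∨ e.1 = 3 →
      Function.update (Function.update τ (2, i, u, []) x) (1, i, x, []) r e = τ e := fun e he => by
    rw [Function.update_of_ne, Function.update_of_ne]
    · rintro rfl; simp [hd'] at he; omega
    · rintro rfl; simp [hS] at he; omega
  have h7 : ∀ e ∈ T, P.h e < (P.t i).eval (pair x r).length := fun e he =>
    (lt_wt _ he).trans_le h1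
  refine ⟨_, h4.trans h5, _, _, h6, fun e he ha => ?_, h2, fun τ' e H _ =>
    ⟨by simp, fun _ => Or.inr ?_⟩⟩
  · rcases List.mem_cons.1 he with rfl | he
    · simp at ha
    · exact h7 e he
  · simp only
    rw [e, Function.update_self, h3 τ' fun d hd =>
      (H d (List.mem_cons_of_mem _ hd)).trans (h6 d (Or.inl (h7 d hd))), H _ List.mem_cons_self,
      Function.update_of_ne (by simp), Function.update_self]
    exact ⟨hr, rfl⟩

theorem mem_box {d : Cell} {m : ℕ} (h1 : d.1 ≤ 1 ∧ d.2.2.2 = [] ∨ d.1 = 4 ∧ d.2.2.2 = [])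
    (h2 : P.lv d ≤ m) : d ∈ box m := by
  have := (P.hc d.2.1).1
  unfold lv at h2
  refine ⟨by omega, ?_, ?_, h1.elim (·.2) (·.2)⟩ <;> split_ifs at h2 <;> omega

open Classical in
noncomputable def sys : Sys Cell Str where
  h := P.h
  lv := P.lv
  act d := d.1 ≤ 1 ∧ d.2.2.2 = []
  fix d := d.1 = 3
  tok d := d.1 = 4 ∧ d.2.2.2 = []
  Con := P.Con
  B m := 2 ^ (5 * m + 11)
  v0 := []
  G e τ := [decide (P.G e.2.1 (orc P.h τ) e.2.2.1)]
  W e := (strs (5 * P.lv e + 12)).image fun w => (3, e.2.1, e.2.2.1, w)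
  pas c τ ha hw := ⟨fun h => (ha ⟨by omega, hw⟩).elim, fun h => (ha ⟨by omega, hw⟩).elim⟩
  cert := P.cert
  sat := P.sat
  cost c ha := by
    simp only [h, lv, ha.1, if_true]
    exact (P.hc _).2 _ (by omega)
  finh L := (finite_box L).subset fun c hc => P.mem_box (Or.inl hc.1) (by
    have h1 := hc.2
    have h2 := P.hZ c.2.1 (c.2.2.1.length + P.c c.2.1)
    simp only [h, lv, hc.1.1, if_true] at h1 ⊢
    omega)
  finl m := (finite_box m).subset fun c hc => P.mem_box hc.1 hc.2.le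
  bud m Δ H := by
    refine (Finset.sum_le_card_nsmul _ _ (2 ^ m) fun e he =>
      Nat.pow_le_pow_right (by omega) (H e he).2).trans ?_
    rw [smul_eq_mul, show 5 * m + 11 = 4 * m + 11 + m by omega, pow_add _ _ m]
    exact Nat.mul_le_mul_right _ (card_box fun c hc => P.mem_box (H c hc).1 (H c hc).2)
  certG e τ he := by
    obtain ⟨T, h1, h2⟩ := cert_orc (h := P.h) (z := (3, 0, [], [])) (by simp [h])
      (P.hG e.2.1 e.2.2.1) τ
    refine ⟨T, ?_, fun τ' H => by simp only [h2 τ' H]⟩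
    have h3 : 2 ^ ((P.q e.2.1).eval e.2.2.1.length + 1) ≤ 2 ^ P.lv e :=
      Nat.pow_le_pow_right (by omega) (by simp only [lv, he.1]; simp; omega)
    have h4 : 0 < 2 ^ (P.q e.2.1).eval e.2.2.1.length := by positivity
    rw [pow_succ] at h3
    omega
  W_fix e _ d hd := by
    obtain ⟨w, -, rfl⟩ := Finset.mem_image.1 hd
    simp
  W_card e _ := by
    rw [Finset.card_image_of_injective _ fun w w' h => by simpa using h, card_strs]
    exact Nat.pow_lt_pow_right (by omega) (by omega)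
  W_disj e e' he he' d hd hd' := by
    obtain ⟨w, -, rfl⟩ := Finset.mem_image.1 hd
    obtain ⟨w', -, h⟩ := Finset.mem_image.1 hd'
    simp only [Prod.mk.injEq, true_and] at h
    exact Prod.ext (he.1.trans he'.1.symm)
      (Prod.ext h.1.symm (Prod.ext h.2.1.symm (he.2.trans he'.2.symm)))
  tok_act e he ha := by omega

end Par

end Pool.Agent.P.MP_7a71fe_lc
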