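import Pool.Agent.P.MP_7a71fe_lc.Code

/-!
Exponentially certified predicates used for diagonalization.
-/

namespace Pool.Agent.P.MP_7a71fe_lc

open Pool.Agent.P.MP_d7de43_lc Pool.Agent.Lib.Helper47 Polynomial

/-- exponentially bounded -/
def EB (g : Str → ℕ) : Prop := ∃ q : Str → ℕ, PB List.length q ∧ ∀ x, g x ≤ 2 ^ q x

namespace EB
variable {g g' : Str → ℕ}
theorem two_pow (h : PB List.length g) : EB fun x => 2 ^ g x := ⟨g, h, fun _ => le_rfl⟩
theorem of_pb (h : PB List.length g) : EB g := ⟨g, h, fun _ => Nat.lt_two_pow_self.le⟩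
theorem mul (h : EB g) (h' : EB g') : EB fun x => g x * g' x :=
  let ⟨q, h1, h2⟩ := h
  let ⟨q', h3, h4⟩ := h'
  ⟨_, h1.add h3, fun x => by rw [pow_add]; exact Nat.mul_le_mul (h2 x) (h4 x)⟩
theorem add (h : EB g) (h' : EB g') : EB fun x => g x + g' x := by
  obtain ⟨q, h1, h2⟩ := h
  obtain ⟨q', h3, h4⟩ := h'
  refine ⟨_, (h1.add h3).add (PB.const 1), fun x => ?_⟩
  have k1 : 2 ^ q x ≤ 2 ^ (q x + q' x) := Nat.pow_le_pow_right (by omega) (by omega)
  have k2 : 2 ^ q' x ≤ 2 ^ (q x + q' x) := Nat.pow_le_pow_right (by omega) (by omega)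
  have := h2 x
  have := h4 x
  simp only [pow_succ]
  omega
theorem eval (h : EB g) (p : ℕ[X]) : EB fun x => p.eval (g x) := by
  induction p using Polynomial.induction_on with
  | C a => simpa using of_pb (PB.const a)
  | add p q hp hq => simpa using hp.add hq
  | monomial k a hk => simpa [pow_succ, mul_assoc] using hk.mul h
end EB

theorem EF.intro {G : Ora → Str → Prop} (t : Str → ℕ) (ht : EB t)
    (h : ∀ x, Cert List.length (t x) fun b => G b x) : EF G := by
  obtain ⟨q, ⟨p, hp⟩, hq⟩ := ht
  exact ⟨p, fun x => (h x).mono ((hq x).trans (Nat.pow_le_pow_right (by omega) (hp x)))⟩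

def expM (M : Mach) (p : ℕ[X]) (b : Ora) (x : Str) : Prop :=
  run M b (pair x (List.replicate (2 ^ p.eval x.length) false)) = [true]

def npM (M : Mach) (p : ℕ[X]) (b : Ora) (x : Str) : Prop :=
  ∃ w, w.length = p.eval x.length ∧ run M b (pair x w) = [true]

theorem pb_pair : PB List.length fun x : Str => 2 * x.length + 1 :=
  ((PB.const 2).mul PB.self).add (PB.const 1)

theorem ef_expM (M : Mach) (p : ℕ[X]) : EF (expM M p) := by
  obtain ⟨P, hP⟩ := pf_run M
  refine EF.intro _ (((EB.of_pb pb_pair).add (EB.two_pow (PB.self.eval p))).eval P) fun x => ?_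
  exact ((hP _).1.mono (by simp [length_pair])).map fun a => a = [true]

theorem ef_npM (M : Mach) (p : ℕ[X]) : EF (npM M p) := by
  obtain ⟨P, hP⟩ := pf_run M
  refine EF.intro _ ((EB.two_pow (PB.self.eval p)).mul
    (EB.of_pb ((pb_pair.add (PB.self.eval p)).eval P))) fun x => ?_
  have := Cert.family (Ψ := fun b => npM M p b x) (strs (p.eval x.length))
    (Φ := fun w b => run M b (pair x w)) (t := P.eval (2 * x.length + 1 + p.eval x.length))
    (fun w hw => (hP _).1.mono (by rw [length_pair, mem_strs.1 hw])) fun σ σ' H =>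
      propext (exists_congr fun w => and_congr_right fun hw => by rw [H w (mem_strs.2 hw)])
  rwa [card_strs] at this

theorem inEXP_iff {b : Ora} {L : Set Str} (h : InEXP (ora b) L) :
    ∃ M p, L = {x | expM M p b x} := by
  obtain ⟨V, p, ⟨f, hf, h1⟩, h2⟩ := h
  obtain ⟨M, rfl⟩ := fp_iff.1 hf
  exact ⟨M, p, Set.ext fun x => (h2 x).trans (h1 _)⟩

theorem inNP_iff {b : Ora} {L : Set Str} (h : InNP (ora b) L) :
    ∃ M p, L = {x | npM M p b x} := by
  obtain ⟨V, p, ⟨f, hf, h1⟩, h2⟩ := h
  obtain ⟨M, rfl⟩ := fp_iff.1 hf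
  exact ⟨M, p, Set.ext fun x => (h2 x).trans (exists_congr fun w => by rw [h1])⟩

/-! ### Triples -/

def tri (i : ℕ) (x r : Str) : Str := pair (rep i) (pair x r)

theorem length_tri (i : ℕ) (x r : Str) :
    (tri i x r).length = 2 * i + 2 * x.length + r.length + 2 := by
  simp only [tri, length_pair, length_rep]; omega

def par3 (G : ℕ → Str → Str → Ora → Prop) (b : Ora) (y : Str) : Prop :=
  ∃ i x r, y = tri i x r ∧ G i x r b

@[simp] theorem par3_tri (G : ℕ → Str → Str → Ora → Prop) (b : Ora) (i : ℕ) (x r : Str) :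
    par3 G b (tri i x r) ↔ G i x r b := by
  refine ⟨?_, fun h => ⟨i, x, r, rfl, h⟩⟩
  rintro ⟨i', x', r', e, h⟩
  simp only [tri, pair_inj, rep_inj] at e
  rwa [e.1, e.2.1, e.2.2]

theorem ef_par3 {G : ℕ → Str → Str → Ora → Prop} (t : Str → ℕ) (ht : EB t)
    (h : ∀ i x r, Cert List.length (t (tri i x r)) (G i x r)) : EF (par3 G) := by
  refine EF.intro t ht fun y => ?_
  by_cases H : ∃ i x r, y = tri i x r
  · obtain ⟨i, x, r, rfl⟩ := H
    simpa only [par3_tri] using h i x r
  · have : (fun b => par3 G b y) = fun _ => False := funext fun b =>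
      eq_false fun ⟨i, x, r, e, _⟩ => H ⟨i, x, r, e⟩
    rw [this]
    exact Cert.const _

/-- an enumeration of clocked machines -/
theorem exists_enum : ∃ φ : ℕ → Ora → Str → Str,
    (∀ i (y : Str), i ≤ y.length → Cert List.length (2 ^ y.length) fun b => φ i b y) ∧
    ∀ M, ∃ i, φ i = run M := by
  classical
  have : Nonempty Mach := ⟨⟨(id, id, 0), inFP_of_pt PT.id, inFP_of_pt PT.id⟩⟩
  obtain ⟨e, he⟩ := exists_surjective_nat Mach
  choose p hp using pf_run
  refine ⟨fun i => if ∀ n, i ≤ n → (p (e i.unpair.1)).eval n ≤ 2 ^ n then run (e i.unpair.1)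
    else fun _ _ => [], fun i y hy => ?_, fun M => ?_⟩
  · simp only
    split_ifs with h
    · exact (hp _ y).1.mono (h _ hy)
    · exact Cert.const _
  · obtain ⟨a, rfl⟩ := he M
    obtain ⟨c, hc⟩ := exists_le_two_pow (p (e a))
    refine ⟨Nat.pair a c, ?_⟩
    simp only [Nat.unpair_pair]
    exact if_pos fun n hn => hc n ((Nat.right_le_pair a c).trans hn)

section
variable {φ : ℕ → Ora → Str → Str}
  (hφ : ∀ i (y : Str), i ≤ y.length → Cert List.length (2 ^ y.length) fun b => φ i b y)

/-- the diagonal predicate -/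
def diag (φ : ℕ → Ora → Str → Str) : Ora → Str → Prop :=
  par3 fun i x r b => φ i b (tri i x r) ≠ [true]

include hφ in
theorem ef_diag : EF (diag φ) :=
  ef_par3 _ (EB.two_pow PB.self) fun i x r =>
    (hφ i _ (by rw [length_tri]; omega)).map fun a => a ≠ [true]

open Classical in
def sel (n : ℕ) (tb : Str → Str) (x r : Str) (B C : Str → Prop) : Prop :=
  if (tb r).length ≤ n then ¬ C (tb r)
  else if ∃ r', r'.length = r.length ∧ r' ≠ r ∧ tb r' = tb r then
    ∀ r', r'.length = r.length → tb r' = tb r → Encodable.encode r ≤ Encodable.encode r'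
  else B x

/-- the predicate that forces reductions to be one-to-one and length-increasing -/
def ber (φ : ℕ → Ora → Str → Str) (B C : Ora → Str → Prop) : Ora → Str → Prop :=
  par3 fun i x r b => sel (tri i x r).length
    (fun r' => if r'.length = r.length then φ i b (tri i x r') else []) x r (B b) (C b)

include hφ in
theorem ef_ber {B C : Ora → Str → Prop} (hB : EF B) (hC : EF C) : EF (ber φ B C) := by
  obtain ⟨p, hp⟩ := hB
  obtain ⟨q, hq⟩ := hC
  refine ef_par3 _ (((EB.two_pow PB.self).mul (EB.two_pow PB.self)).add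
    (EB.two_pow ((PB.self.eval p).add (PB.self.eval q)))) fun i x r => ?_
  have h0 := length_tri i x r
  have h1 := Cert.family (strs r.length) (Φ := fun r' b => φ i b (tri i x r'))
    (Ψ := fun b => fun r' : Str => if r'.length = r.length then φ i b (tri i x r') else [])
    (t := 2 ^ (tri i x r).length)
    (fun w hw => (hφ i _ (by rw [length_tri]; omega)).mono
      (by rw [length_tri, length_tri, mem_strs.1 hw])) fun σ σ' H => funext fun w => by
      split_ifs with hw
      · exact H w (mem_strs.2 hw)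
      · rfl
  rw [card_strs] at h1
  refine (h1.mono (Nat.mul_le_mul_right _ (Nat.pow_le_pow_right (by omega) (by omega)))).bind
    (Ψ := fun tb b => sel (tri i x r).length tb x r (B b) (C b)) fun τ => ?_
  generalize (fun r' : Str => if r'.length = r.length then φ i τ (tri i x r') else []) = tb
  unfold sel
  split_ifs with h2 h3
  · exact ((hq _).mono (Nat.pow_le_pow_right (by omega)
      ((eval_mono q h2).trans (Nat.le_add_left _ _)))).map Not
  · exact Cert.const _
  · exact (hp _).mono (Nat.pow_le_pow_right (by omega)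
      ((eval_mono p (by omega)).trans (Nat.le_add_right _ _)))

theorem ber_spec {B C : Ora → Str → Prop} {b : Ora} {i : ℕ}
    (h : ∀ y, ber φ B C b y ↔ C b (φ i b y)) :
    (∀ x r, (tri i x r).length < (φ i b (tri i x r)).length) ∧
    (∀ x r r', r.length = r'.length → φ i b (tri i x r) = φ i b (tri i x r') → r = r') ∧
    ∀ x r, B b x ↔ C b (φ i b (tri i x r)) := by
  classical
  have h0 := fun x r => h (tri i x r)
  simp only [ber, par3_tri, sel, if_true] at h0
  have h1 : ∀ x r, ¬ (φ i b (tri i x r)).length ≤ (tri i x r).length := fun x r hl => by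
    have := h0 x r
    rw [if_pos hl] at this
    exact not_iff_self this
  simp only [h1, if_false] at h0
  have h2 : ∀ x r r', r.length = r'.length → φ i b (tri i x r) = φ i b (tri i x r') → r = r' := by
    intro x r r' hl he
    by_contra hne
    obtain ⟨u, hu, hm⟩ := Finset.exists_min_image ((strs r.length).filter fun u =>
      φ i b (tri i x u) = φ i b (tri i x r)) Encodable.encode ⟨r, by simp⟩
    simp only [Finset.mem_filter, mem_strs, and_imp] at hu hm
    have key : ∀ v, v.length = r.length → φ i b (tri i x v) = φ i b (tri i x r) →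
        ((∀ w, w.length = r.length → φ i b (tri i x w) = φ i b (tri i x r) →
          Encodable.encode v ≤ Encodable.encode w) ↔ C b (φ i b (tri i x r))) := by
      intro v hv hv'
      have h3 := h0 x v
      rw [if_pos, hv, hv'] at h3
      · rw [← h3]
        exact forall₂_congr fun w hw => by rw [if_pos hw]
      · by_cases e : r = v
        · exact ⟨r', by omega, fun e' => hne (e.trans e'.symm), by
            rw [if_pos (by omega), hv', he]⟩
        · exact ⟨r, hv.symm, e, by rw [if_pos hv.symm, hv']⟩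
    have h4 := (key u hu.1 hu.2).1 hm
    exact hne (Encodable.encode_injective (le_antisymm ((key r rfl rfl).2 h4 r' hl.symm he.symm)
      ((key r' hl.symm he.symm).2 h4 r rfl rfl)))
  refine ⟨fun x r => not_le.1 (h1 x r), h2, fun x r => ?_⟩
  have h3 := h0 x r
  rwa [if_neg] at h3
  rintro ⟨r', k1, k2, k3⟩
  rw [if_pos k1] at k3
  exact k2 (h2 x r' r k1 k3)

end

/-- a universal predicate -/
def univG (e : ℕ → Ora → Str → Prop) (q : ℕ → ℕ[X]) : Ora → Str → Prop :=
  par3 fun i x r b => (q i).eval x.length ≤ r.length ∧ e i b x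

theorem ef_univG {e : ℕ → Ora → Str → Prop} {q : ℕ → ℕ[X]}
    (h : ∀ i x, Cert List.length (2 ^ (q i).eval x.length) fun b => e i b x) : EF (univG e q) :=
  ef_par3 _ (EB.two_pow PB.self) fun i x r => by
    by_cases H : (q i).eval x.length ≤ r.length
    · exact ((h i x).mono (Nat.pow_le_pow_right (by omega) (by rw [length_tri]; omega))).map
        fun a => _ ∧ a
    · simp only [H, false_and]
      exact Cert.const _

end Pool.Agent.P.MP_7a71fe_lc
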