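import Pool.Agent.P.MP_7a71fe_lc.Cert

/-!
The back and forth construction of an isomorphism from two invertible reductions.
-/

namespace Pool.Agent.P.MP_7a71fe_lc

open Pool.Agent.P.MP_d7de43_lc Pool.Agent.Lib.Helper47

/-- the chain of ancestors of `x` stops on the side of `x` -/
def sl (g D g' D' : Str → Str) : ℕ → Str → Bool
  | 0, _ => true
  | n + 1, x => if g' (D' x) = x then
      (if g (D (D' x)) = D' x then sl g D g' D' n (D (D' x)) else false) else true

def isoL (g D g' D' : Str → Str) (x : Str) : Str :=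
  if sl g D g' D' (x.length + 1) x then g x else D' x

def isoR (g D g' D' : Str → Str) (y : Str) : Str :=
  if g (D y) = y ∧ sl g D g' D' ((D y).length + 1) (D y) then D y else g' y

section
variable {g D g' D' : Str → Str}

theorem sl_fuel (h : ∀ x, x.length < (g x).length) (h' : ∀ x, x.length < (g' x).length)
    (n m : ℕ) (x : Str) (hn : x.length < n) (hm : x.length < m) :
    sl g D g' D' n x = sl g D g' D' m x := by
  induction n generalizing m x with
  | zero => omega
  | succ n ih =>
    obtain ⟨m, rfl⟩ : ∃ k, m = k + 1 := ⟨m - 1, by omega⟩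
    simp only [sl]
    split_ifs with h1 h2
    · have h3 := h' (D' x)
      have h4 := h (D (D' x))
      rw [h1] at h3
      rw [h2] at h4
      exact ih _ _ (by omega) (by omega)
    · rfl
    · rfl

theorem exists_equiv (h : ∀ x, D (g x) = x ∧ x.length < (g x).length)
    (h' : ∀ x, D' (g' x) = x ∧ x.length < (g' x).length) {B C : Set Str}
    (hB : ∀ x, x ∈ B ↔ g x ∈ C) (hC : ∀ y, y ∈ C ↔ g' y ∈ B) :
    ∃ e : Str ≃ Str, ⇑e = isoL g D g' D' ∧ ⇑e.symm = isoR g D g' D' ∧ ∀ x, x ∈ B ↔ e x ∈ C := by
  have key : ∀ x, sl g D g' D' (x.length + 1) x = false ↔ g' (D' x) = x ∧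
      ¬ (g (D (D' x)) = D' x ∧ sl g D g' D' ((D (D' x)).length + 1) (D (D' x)) = true) := by
    intro x
    rw [sl]
    split_ifs with h1 h2
    · have h3 := (h' (D' x)).2
      have h4 := (h (D (D' x))).2
      rw [h1] at h3
      rw [h2] at h4
      rw [sl_fuel (fun x => (h x).2) (fun x => (h' x).2) x.length ((D (D' x)).length + 1) _
        (by omega) (by omega)]
      simp [h1, h2]
    · simp [h1, h2]
    · simp [h1]
  refine ⟨⟨isoL g D g' D', isoR g D g' D', fun x => ?_, fun y => ?_⟩, rfl, rfl, fun x => ?_⟩
  · unfold isoL isoR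
    by_cases h1 : sl g D g' D' (x.length + 1) x = true
    · simp [h1, (h x).1]
    · have h2 := (key x).1 (by simpa using h1)
      rw [if_neg h1, if_neg h2.2, h2.1]
  · unfold isoL isoR
    by_cases h1 : g (D y) = y ∧ sl g D g' D' ((D y).length + 1) (D y) = true
    · rw [if_pos h1, if_pos h1.2, h1.1]
    · have h2 := (key (g' y)).2 (by rw [(h' y).1]; exact ⟨rfl, h1⟩)
      rw [if_neg h1, if_neg (by simp [h2]), (h' y).1]
  · change _ ↔ isoL g D g' D' x ∈ C
    unfold isoL
    split_ifs with h1
    · exact hB x
    · rw [hC, ((key x).1 (by simpa using h1)).1]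

end

section
variable {g D g' D' : Ora → Str → Str}

theorem cert_sl {m t : ℕ} (hg : ∀ x : Str, x.length ≤ m → Cert List.length t fun b => g b x)
    (hD : ∀ x : Str, x.length ≤ m → Cert List.length t fun b => D b x)
    (hg' : ∀ x : Str, x.length ≤ m → Cert List.length t fun b => g' b x)
    (hD' : ∀ x : Str, x.length ≤ m → Cert List.length t fun b => D' b x)
    (hl : ∀ b x, (D b x).length ≤ x.length) (hl' : ∀ b x, (D' b x).length ≤ x.length)
    (n : ℕ) (x : Str) (hx : x.length ≤ m) :
    Cert List.length (n * (4 * t)) fun b => sl (g b) (D b) (g' b) (D' b) n x := by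
  induction n generalizing x with
  | zero => exact Cert.const _
  | succ n ih =>
    refine ((hD' x hx).bind (Ψ := fun y b => if g' b y = x then
      (if g b (D b y) = y then sl (g b) (D b) (g' b) (D' b) n (D b y) else false) else true)
      fun τ => ?_).mono (show t + (t + (t + (t + n * (4 * t)))) ≤ _ by rw [add_mul]; omega)
    have h1 := (hl' τ x).trans hx
    refine (hD _ h1).bind (Ψ := fun z b => if g' b (D' τ x) = x then
      (if g b z = D' τ x then sl (g b) (D b) (g' b) (D' b) n z else false) else true) fun σ => ?_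
    have h2 := (hl σ _).trans h1
    exact ((hg' _ h1).prod ((hg _ h2).prod (ih _ h2))).map fun a =>
      if a.1 = x then (if a.2.1 = D' τ x then a.2.2 else false) else true

theorem pf_iso (hg : PF g) (hD : PF D) (hg' : PF g') (hD' : PF D')
    (hl : ∀ b x, (D b x).length ≤ x.length) (hl' : ∀ b x, (D' b x).length ≤ x.length) :
    PF (fun b => isoL (g b) (D b) (g' b) (D' b)) ∧
      PF fun b => isoR (g b) (D b) (g' b) (D' b) := by
  obtain ⟨p1, h1⟩ := hg
  obtain ⟨p2, h2⟩ := hD
  obtain ⟨p3, h3⟩ := hg'
  obtain ⟨p4, h4⟩ := hD'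
  let t : Str → ℕ := fun x => p1.eval x.length + p2.eval x.length + p3.eval x.length +
    p4.eval x.length
  have ht : PB List.length t :=
    (((PB.self.eval p1).add (PB.self.eval p2)).add (PB.self.eval p3)).add (PB.self.eval p4)
  have k1 := fun (x y : Str) (h : y.length ≤ x.length) => (h1 y).1.mono
    (show _ ≤ t x by have := eval_mono p1 h; simp only [t]; omega)
  have k2 := fun (x y : Str) (h : y.length ≤ x.length) => (h2 y).1.mono
    (show _ ≤ t x by have := eval_mono p2 h; simp only [t]; omega)
  have k3 := fun (x y : Str) (h : y.length ≤ x.length) => (h3 y).1.mono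
    (show _ ≤ t x by have := eval_mono p3 h; simp only [t]; omega)
  have k4 := fun (x y : Str) (h : y.length ≤ x.length) => (h4 y).1.mono
    (show _ ≤ t x by have := eval_mono p4 h; simp only [t]; omega)
  have k5 := fun x => cert_sl (k1 x) (k2 x) (k3 x) (k4 x) hl hl'
  have hs : PB List.length fun x : Str => (x.length + 1) * (4 * t x) :=
    (PB.self.add (PB.const 1)).mul ((PB.const 4).mul ht)
  constructor
  · refine PF.intro _ _ (hs.add (ht.add ht)) ht (fun x => ((k5 x _ x le_rfl).prod
      ((k1 x x le_rfl).prod (k4 x x le_rfl))).map fun a => if a.1 then a.2.1 else a.2.2)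
      fun x b => ?_
    have := (h1 x).2 b
    have := (h4 x).2 b
    simp only [isoL, t]
    split_ifs <;> omega
  · refine PF.intro _ _ (ht.add (hs.add (ht.add ht))) ht (fun y => (k2 y y le_rfl).bind
      (Ψ := fun z b => if g b z = y ∧ sl (g b) (D b) (g' b) (D' b) (z.length + 1) z then z
        else g' b y) fun τ => ?_) fun x b => ?_
    · exact (((k5 y _ _ (hl τ y)).mono (Nat.mul_le_mul_right _ (Nat.succ_le_succ (hl τ y)))).prod
        ((k1 y _ (hl τ y)).prod (k3 y y le_rfl))).map fun a =>
          if a.2.1 = y ∧ a.1 then D τ y else a.2.2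
    · have := (h2 x).2 b
      have := (h3 x).2 b
      simp only [isoR, t]
      split_ifs <;> omega

/-- cutting the value to the length of the argument -/
def cut (D : Str → Str) (x : Str) : Str := (D x).take x.length

theorem PF.cut (hD : PF D) : PF fun b => cut (D b) :=
  let ⟨p, h⟩ := hD
  ⟨p, fun x => ⟨(h x).1.map fun a => a.take x.length,
    fun b => (List.length_take_le' _ _).trans ((h x).2 b)⟩⟩

end

end Pool.Agent.P.MP_7a71fe_lc
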