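import Pool.Agent.P.MP_7a71fe_lc.Ora
import Pool.Agent.P.MP_7a71fe_lc.Iso
import Pool.Agent.P.MP_7a71fe_lc.Exp

/-!
An oracle relative to which unambiguous polynomial time equals exponential time and all complete
sets for exponential time are isomorphic.
-/

namespace Pool.Agent.P.MP_7a71fe_lc

open Pool.Agent.P.MP_d7de43_lc Pool.Agent.Lib.Helper47 Polynomial

noncomputable def opF : ℕ × Mach × Mach × Mach × Mach → Ora → Str → Str
  | (0, M, N, _, _) => fun b x => run M b (run N b x)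
  | (1, M, N, _, _) => fun b x => pair (run M b x) (run N b x)
  | (2, M, N, M', N') => fun b => isoL (run M b) (cut (run N b)) (run M' b) (cut (run N' b))
  | (_ + 3, M, N, M', N') => fun b => isoR (run M b) (cut (run N b)) (run M' b) (cut (run N' b))

theorem pf_opF (i : ℕ × Mach × Mach × Mach × Mach) : PF (opF i) := by
  obtain ⟨k, M, N, M', N'⟩ := i
  have := pf_iso (pf_run M) (pf_run N).cut (pf_run M') (pf_run N').cut
    (fun b x => List.length_take_le _ _) fun b x => List.length_take_le _ _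
  rcases k with _ | _ | _ | k
  · exact (pf_run M).comp (pf_run N)
  · exact (pf_run M).pair (pf_run N)
  · exact this.1
  · exact this.2

def opG (φ : ℕ → Ora → Str → Str) (U : Ora → Str → Prop) :
    ℕ × (Mach × ℕ[X]) × Mach × ℕ[X] → Ora → Str → Prop
  | (0, M, _) => expM M.1 M.2
  | (1, M, _) => npM M.1 M.2
  | (2, _, _) => diag φ
  | (3, _, _) => U
  | (_ + 4, M, N) => ber φ (expM M.1 M.2) (expM N.1 N.2)

/-- the properties of the oracle -/
structure Nice (A : Set Str) : Prop where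
  comp : ∀ f g, FP A f → FP A g → FP A fun x => f (g x)
  pair : ∀ f g, FP A f → FP A g → FP A fun x => pair (f x) (g x)
  core : ∀ f, FP A f → Core A f
  iso : ∀ g D g' D', FP A g → FP A D → FP A g' → FP A D' →
    FP A (isoL g (cut D) g' (cut D')) ∧ FP A (isoR g (cut D) g' (cut D'))

theorem Nice.iso_of {A B C : Set Str} (h : Nice A) {g D g' D' : Str → Str} (h1 : Red A B C g)
    (h2 : FP A D) (h3 : Red A C B g') (h4 : FP A D')
    (h5 : ∀ x, D (g x) = x ∧ x.length < (g x).length)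
    (h6 : ∀ x, D' (g' x) = x ∧ x.length < (g' x).length) : Iso A B C := by
  have key : ∀ g D : Str → Str, (∀ x, D (g x) = x ∧ x.length < (g x).length) →
      ∀ x, cut D (g x) = x ∧ x.length < (g x).length := fun g D H x =>
    ⟨by rw [cut, (H x).1, List.take_of_length_le (H x).2.le], (H x).2⟩
  obtain ⟨e, k1, k2, k3⟩ := exists_equiv (key g D h5) (key g' D' h6) h1.2 h3.2
  have := h.iso g D g' D' h1.1 h2 h3.1 h4
  exact ⟨e, ⟨k1 ▸ this.1, k3⟩, k2 ▸ this.2⟩

/-- an invertible reduction from a reduction that ignores a padding argument -/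
theorem Nice.inv {A B C : Set Str} (h : Nice A) {f : Str → Str} (hf : FP A f)
    (h1 : ∀ x r, (MP_d7de43_lc.pair x r).length < (f (MP_d7de43_lc.pair x r)).length)
    (h2 : ∀ x r r', r.length = r'.length →
      f (MP_d7de43_lc.pair x r) = f (MP_d7de43_lc.pair x r') → r = r')
    (h3 : ∀ x r, x ∈ B ↔ f (MP_d7de43_lc.pair x r) ∈ C) :
    ∃ g D, Red A B C g ∧ FP A D ∧ ∀ x, D (g x) = x ∧ x.length < (g x).length := by
  obtain ⟨r, D, k1, k2, k3⟩ := h.core f hf h1 h2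
  refine ⟨_, D, ⟨h.comp _ _ hf (h.pair _ _ (fp_of_pt A PT.id) k1), fun x => h3 x _⟩, k2,
    fun x => ⟨k3 x, ?_⟩⟩
  have := h1 x (r x)
  rw [length_pair] at this
  omega

theorem Nice.paddable {A B C : Set Str} (h : Nice A) {f g : Str → Str} (hB : Paddable A B)
    (hf : Red A B C f) (hl : OneLi f) (hg : Red A C B g) : Iso A B C := by
  obtain ⟨p, d, k1, k2, k3, k4⟩ := hB
  obtain ⟨u, D, k5, k6, k7⟩ := h.inv (B := B) (C := C) (h.comp _ _ hf.1 k1)
    (fun x r => (k3 _).2.trans (hl.2 _))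
    (fun x r r' _ e => by
      have := congrArg d (hl.1 e)
      rw [(k3 _).1, (k3 _).1] at this
      exact (pair_inj.1 this).2)
    fun x r => (k4 x r).symm.trans (hf.2 _)
  refine h.iso_of k5 k6 (g' := fun y => p (MP_d7de43_lc.pair (g y) y))
    ⟨h.comp _ _ k1 (h.pair _ _ hg.1 (fp_of_pt A PT.id)), fun y => (hg.2 y).trans (k4 _ _).symm⟩
    (h.comp _ _ (fp_of_pt A (pt_sndP PT.id)) k2) k7 fun y => ⟨by rw [(k3 _).1, sndP_pair], ?_⟩
  have := (k3 (MP_d7de43_lc.pair (g y) y)).2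
  rw [length_pair] at this
  omega

theorem pt_tri (i : ℕ) : PT fun z => pair (rep i) z := pt_pair (PT.const _) PT.id

theorem main : ∃ A : Set (List Bool),
    (∀ L, InEXP A L ↔ InUP A L ∧ InUP A Lᶜ) ∧ (∀ L, InNP A L ↔ InEXP A L) ∧
    (∃ L, InEXP A L ∧ ¬ InP A L) ∧ (∃ C, Complete A C) ∧
    (∀ B C, Complete A B → Complete A C → Iso A B C) ∧
    ∀ B C f g, Paddable A B → Red A B C f → OneLi f → Red A C B g → Iso A B C := by
  have : Nonempty Mach := ⟨⟨(id, id, 0), inFP_of_pt PT.id, inFP_of_pt PT.id⟩⟩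
  obtain ⟨φ, hφ, hφ'⟩ := exists_enum
  obtain ⟨e, he⟩ := exists_surjective_nat (Mach × ℕ[X])
  choose q hq using fun i => ef_expM (e i).1 (e i).2
  obtain ⟨b, h1, h2⟩ := exists_oracle opF pf_opF
    (opG φ (univG (fun i => expM (e i).1 (e i).2) q)) (by
      rintro ⟨_ | _ | _ | _ | k, M, N⟩
      · exact ef_expM _ _
      · exact ef_npM _ _
      · exact ef_diag hφ
      · exact ef_univG hq
      · exact ef_ber hφ (ef_expM _ _) (ef_expM _ _))
  have nice : Nice (ora b) := by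
    refine ⟨fun f g hf hg => ?_, fun f g hf hg => ?_, fun f hf => ?_,
      fun g D g' D' k1 k2 k3 k4 => ?_⟩
    · obtain ⟨M, rfl⟩ := fp_iff.1 hf
      obtain ⟨N, rfl⟩ := fp_iff.1 hg
      exact (h1 (0, M, N, M, M)).1
    · obtain ⟨M, rfl⟩ := fp_iff.1 hf
      obtain ⟨N, rfl⟩ := fp_iff.1 hg
      exact (h1 (1, M, N, M, M)).1
    · obtain ⟨M, rfl⟩ := fp_iff.1 hf
      obtain ⟨N, hN⟩ := fp_iff.1 (fp_of_pt (ora b) (PT.id (α := Str)))
      have := (h1 (0, M, N, M, M)).2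
      simp only [opF, ← hN] at this
      exact this
    · obtain ⟨M, rfl⟩ := fp_iff.1 k1
      obtain ⟨N, rfl⟩ := fp_iff.1 k2
      obtain ⟨M', rfl⟩ := fp_iff.1 k3
      obtain ⟨N', rfl⟩ := fp_iff.1 k4
      exact ⟨(h1 (2, M, N, M', N')).1, (h1 (3, M, N, M', N')).1⟩
  have up_np : ∀ L, InUP (ora b) L → InNP (ora b) L := fun L ⟨V, p, h, h'⟩ =>
    ⟨V, p, h, fun x => (h' x).1⟩
  have np_exp : ∀ L, InNP (ora b) L → InEXP (ora b) L := fun L h => by
    obtain ⟨M, p, rfl⟩ := inNP_iff h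
    exact (h2 (1, (M, p), M, p)).2.2
  have exp_up : ∀ L, InEXP (ora b) L → InUP (ora b) L ∧ InUP (ora b) Lᶜ := fun L h => by
    obtain ⟨M, p, rfl⟩ := inEXP_iff h
    exact ⟨(h2 (0, (M, p), M, p)).1, (h2 (0, (M, p), M, p)).2.1⟩
  have inv : ∀ B C, InEXP (ora b) B → Complete (ora b) C →
      ∃ g D, Red (ora b) B C g ∧ FP (ora b) D ∧ ∀ x, D (g x) = x ∧ x.length < (g x).length := by
    intro B C hB hC
    obtain ⟨M, p, rfl⟩ := inEXP_iff hB
    obtain ⟨N, p', rfl⟩ := inEXP_iff hC.1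
    obtain ⟨f, k1, k2⟩ := hC.2 _ (h2 (4, (M, p), N, p')).2.2
    obtain ⟨M', rfl⟩ := fp_iff.1 k1
    obtain ⟨i, hi⟩ := hφ' M'
    rw [← hi] at k1 k2
    obtain ⟨k3, k4, k5⟩ := ber_spec k2
    refine nice.inv (nice.comp _ _ k1 (fp_of_pt _ (pt_tri i))) (fun x r => ?_) k4 k5
    refine lt_trans ?_ (k3 x r)
    rw [tri, length_pair (rep i)]
    omega
  refine ⟨ora b, fun L => ⟨exp_up L, fun h => np_exp L (up_np L h.1)⟩,
    fun L => ⟨np_exp L, fun h => up_np L (exp_up L h).1⟩,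
    ⟨_, (h2 (2, e 0, e 0)).2.2, ?_⟩, ⟨_, (h2 (3, e 0, e 0)).2.2, fun B hB => ?_⟩,
    fun B C hB hC => ?_, fun B C f g => nice.paddable⟩
  · rintro ⟨f, k1, k2⟩
    obtain ⟨M, rfl⟩ := fp_iff.1 k1
    obtain ⟨i, hi⟩ := hφ' M
    have := k2 (tri i [] [])
    simp only [opG, diag, Set.mem_ofPred_eq, par3_tri, hi] at this
    exact not_iff_self this
  · obtain ⟨M, p, rfl⟩ := inEXP_iff hB
    obtain ⟨i, hi⟩ := he (M, p)
    refine ⟨fun x => tri i x (rep ((q i).eval x.length)), fp_of_pt _ ((pt_tri i).comp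
      (pt_pair PT.id (PT.replicate (pt_eval _ (by fun_prop)) ((ps_length PT.id).eval _)
        (PT.const _)))), fun x => ?_⟩
    simp [opG, univG, hi]
  · obtain ⟨g, D, k1, k2, k3⟩ := inv B C hB.1 hC
    obtain ⟨g', D', k4, k5, k6⟩ := inv C B hC.1 hB
    exact nice.iso_of k1 k2 k4 k5 k3 k6

end Pool.Agent.P.MP_7a71fe_lc
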