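import Pool.Agent.P.MP_7a71fe_lc.Code

/-!
The oracle theorem for countable families of functionals.
-/

namespace Pool.Agent.P.MP_7a71fe_lc

open Pool.Agent.P.MP_d7de43_lc Pool.Agent.Lib.Helper47 Polynomial

/-- `f` can be inverted on the graph of a polynomial-time function -/
def Core (A : Set Str) (f : Str → Str) : Prop :=
  (∀ x r, (pair x r).length < (f (pair x r)).length) →
  (∀ x r r', r.length = r'.length → f (pair x r) = f (pair x r') → r = r') →
  ∃ r D, FP A r ∧ FP A D ∧ ∀ x, D (f (pair x (r x))) = x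

theorem Par.exists_oracle (P : Par) : ∃ b : Ora,
    (∀ i, FP (ora b) (P.F i b) ∧ Core (ora b) (P.F i b)) ∧
    ∀ i, InUP (ora b) {x | P.G i b x} ∧ InUP (ora b) {x | P.G i b x}ᶜ := by
  classical
  obtain ⟨τ, h1, h2⟩ := P.sys.exists_sol
  have hH : ∀ k i x w, k ≤ 1 → P.h (k, i, x, w) = ((P.Z i).comp (X + C (P.c i))).eval x.length :=
    fun k i x w hk => by simp [Par.h, hk, eval_comp]
  refine ⟨orc P.h τ, fun i => ⟨?_, fun hl hi => ?_⟩, fun i => ?_⟩
  · obtain ⟨f, h3, h4⟩ := fp_look P.h τ 0 i PT.id (PT.const []) PT.id _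
      (fun y => hH 0 i y [] (by omega)) (P.t i)
    have h5 : ∀ y, τ (0, i, y, []) = P.F i (orc P.h τ) y := fun y => (h1 (0, i, y, []) rfl).1 rfl
    have : f = P.F i (orc P.h τ) := funext fun y =>
      (h4 y (by rw [h5]; exact (P.hF i y).2 _)).trans (h5 y)
    exact this ▸ h3
  · obtain ⟨r, h3, h4⟩ := fp_look P.h τ 1 i PT.id (PT.const []) PT.id _
      (fun y => hH 1 i y [] le_rfl) (5 * (X + C (P.c i)) + 12)
    obtain ⟨D, h5, h6⟩ := fp_look P.h τ 2 i PT.id (PT.const []) PT.id (P.t i)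
      (fun y => by simp [Par.h]) X
    refine ⟨r, D, h3, h5, fun x => ?_⟩
    rcases (h1 (1, i, x, []) rfl).2 rfl with ⟨u, u', k1, k2, k3 | k3⟩ | ⟨k1, k2⟩
    · exact absurd (hl x u) (not_lt.2 k3)
    · exact (k3.1 (hi x u u' (k1.trans k2.symm) k3.2)).elim
    · simp only at k1 k2
      have k3 := hl x (τ (1, i, x, []))
      rw [length_pair] at k3
      rw [h4 x (by simp [k1, Par.rho]), h6 _ (by rw [k2, eval_X]; omega), k2]
  · have key : ∀ (g : Str → Str) (L : Set Str), PT g → g [] = [] →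
        (∀ x, x ∈ L ↔ g [decide (P.G i (orc P.h τ) x)] = [true]) → InUP (ora (orc P.h τ)) L := by
      intro g L hg h0 hL
      obtain ⟨f, h3, h4⟩ := fp_look P.h τ 3 i (pt_fstP PT.id) (pt_sndP PT.id) hg 0
        (fun y => by simp [Par.h]) 1
      refine ⟨{y | f y = [true]}, 5 * (P.q i + X + C i + 1) + 12, ⟨f, h3, fun _ => Iff.rfl⟩,
        fun x => ?_⟩
      obtain ⟨_, k1, k2, k3⟩ := h2 (4, i, x, []) ⟨rfl, rfl⟩
      obtain ⟨w, hw, rfl⟩ := Finset.mem_image.1 k1
      have e : (5 * (P.q i + X + C i + 1) + 12 : ℕ[X]).eval x.length =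
          5 * P.lv (4, i, x, []) + 12 := by simp [Par.lv]
      rw [e]
      rw [mem_strs] at hw
      have k4 : f (pair x w) = g [decide (P.G i (orc P.h τ) x)] := by
        have k5 : τ (3, i, x, w) = [decide (P.G i (orc P.h τ) x)] := k2
        rw [h4 _ (by simp [k5])]; simp [k5]
      have k6 : ∀ w', w'.length = 5 * P.lv (4, i, x, []) + 12 → f (pair x w') = [true] →
          w' = w := fun w' hw' hf => by
        by_contra hne
        have k7 : τ (3, i, x, w') = [] := k3 _ (Finset.mem_image.2 ⟨w', mem_strs.2 hw', rfl⟩)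
          (by simpa using hne)
        rw [h4 _ (by simp [k7])] at hf
        simp [k7, h0] at hf
      refine ⟨⟨fun hx => ⟨w, hw, k4.trans ((hL x).1 hx)⟩, ?_⟩,
        fun a ha a' ha' => (k6 a ha.1 ha.2).trans (k6 a' ha'.1 ha'.2).symm⟩
      rintro ⟨w', hw', hf⟩
      obtain rfl := k6 w' hw' hf
      exact (hL x).2 (k4.symm.trans hf)
    exact ⟨key (fun y => y) _ PT.id rfl fun x => by simp,
      key (fun y => y.map not) _ (by fun_prop) rfl fun x => by simp⟩

theorem exists_oracle_seq (F : ℕ → Ora → Str → Str) (hF : ∀ i, PF (F i))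
    (G : ℕ → Ora → Str → Prop) (hG : ∀ i, EF (G i)) : ∃ b : Ora,
    (∀ i, FP (ora b) (F i b) ∧ Core (ora b) (F i b)) ∧
    ∀ i, InUP (ora b) {x | G i b x} ∧ InUP (ora b) {x | G i b x}ᶜ := by
  choose t ht using hF
  choose q hq using hG
  have h1 : PB (fun m : ℕ => m) fun m => 7 * m + 13 :=
    ((PB.const 7).mul PB.self).add (PB.const 13)
  choose Z hZ using fun i => ((((PB.const 2).mul (h1.eval (t i))).add
    ((h1.eval (t i)).eval (t i))).add PB.self).add (PB.const 1)
  choose c hc using fun i => exists_le_two_pow (Z i + 1)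
  exact Par.exists_oracle ⟨F, G, t, q, Z, fun i => max i (c i), ht, hq, hZ, fun i =>
    ⟨le_max_left _ _, fun m hm => by simpa using hc i m ((le_max_right _ _).trans hm)⟩⟩

/-- the padded version of an exponentially certified predicate -/
noncomputable def padF (G : Ora → Str → Prop) (q : ℕ[X]) (b : Ora) (y : Str) : Str :=
  open Classical in if 2 ^ q.eval (fstP y).length ≤ y.length then [decide (G b (fstP y))] else []

theorem exists_oracle {ι κ : Type} [Countable ι] [Countable κ] [Nonempty κ]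
    (F : ι → Ora → Str → Str) (hF : ∀ i, PF (F i))
    (G : κ → Ora → Str → Prop) (hG : ∀ i, EF (G i)) : ∃ b : Ora,
    (∀ i, FP (ora b) (F i b) ∧ Core (ora b) (F i b)) ∧
    ∀ i, InUP (ora b) {x | G i b x} ∧ InUP (ora b) {x | G i b x}ᶜ ∧
      InEXP (ora b) {x | G i b x} := by
  classical
  choose q hq using hG
  obtain ⟨e, he⟩ := exists_surjective_nat (ι ⊕ κ)
  obtain ⟨e', he'⟩ := exists_surjective_nat κ
  obtain ⟨b, h1, h2⟩ := exists_oracle_seq
    (fun n => Sum.elim F (fun i => padF (G i) (q i)) (e n)) (fun n => by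
      rcases e n with i | i
      · exact hF i
      · refine PF.intro List.length (fun _ => 1) PB.self (PB.const 1) (fun y => ?_) fun y b => ?_
        · simp only [Sum.elim_inr, padF]
          split_ifs with h
          · exact ((hq i _).mono h).map fun a => [decide a]
          · exact Cert.const _
        · simp only [Sum.elim_inr, padF]
          split_ifs <;> simp)
    (fun n => G (e' n)) fun n => ⟨_, hq _⟩
  refine ⟨b, fun i => ?_, fun i => ?_⟩
  · obtain ⟨n, hn⟩ := he (Sum.inl i)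
    simpa [hn] using h1 n
  · obtain ⟨n, rfl⟩ := he' i
    obtain ⟨m, hm⟩ := he (Sum.inr (e' n))
    refine ⟨(h2 n).1, (h2 n).2, {y | padF (G (e' n)) (q (e' n)) b y = [true]}, q (e' n),
      ⟨_, by simpa [hm] using (h1 m).1, fun _ => Iff.rfl⟩, fun x => ?_⟩
    simp [padF, length_pair]

end Pool.Agent.P.MP_7a71fe_lc
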